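import Pool.Agent.Helper58_PP.Chr
import Pool.Agent.Helper58_CL.Fin

/-!
TFA (AWC_J, J5), part 4: the factorisation of the sums of the counting lemma.
-/

open scoped BigOperators

set_option linter.unusedSectionVars false

noncomputable section

namespace Pool.Agent.PP.H58

open Pool.Agent.PP Pool.Agent.PP.H20

section scal

variable {F X : Type} [Field F] [Group X] [Finite X] {ℓ : ℕ} {Y R S M : Subgroup X} {f : X → F}
  {n m : ℕ} {ρ : ↥(Y ⊓ S) →* Matrix (Fin n) (Fin n) F}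
  {W : (X → F) →ₗ[F] Matrix (Fin m) (Fin m) F}

theorem comm_kr (hρ : IsIrr ρ) {P : Matrix (Fin (n * m)) (Fin (n * m)) F}
    (h : ∀ t, P * kr (ρ t) (1 : Matrix (Fin m) (Fin m) F) = kr (ρ t) 1 * P) :
    ∃ q : Matrix (Fin m) (Fin m) F, P = kr 1 q := by
  apply H74.kr_commutant hρ.1
  intro A
  have hA : A ∈ Submodule.span F (Set.range ρ) := by rw [hρ.2]; trivial
  induction hA using Submodule.span_induction with
  | mem x hx =>
    obtain ⟨t, rfl⟩ := hx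
    exact (h t).symm
  | zero => rw [H33.kr_zero_left, zero_mul, mul_zero]
  | add x y _ _ hx hy => rw [H74.kr_add_left, add_mul, mul_add, hx, hy]
  | smul c x _ hx => rw [H74.kr_smul_left, Matrix.smul_mul, Matrix.mul_smul, hx]

theorem inter_ev {L : Type} [Group L] [Finite L] {N N' : ℕ} {ψ : L →* Matrix (Fin N) (Fin N) F}
    {ψ' : L →* Matrix (Fin N') (Fin N') F} {P : Matrix (Fin N') (Fin N) F}
    (h : ∀ t, P * ψ t = ψ' t * P) (a : L → F) : P * ev ψ a = ev ψ' a * P := by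
  have hfin := Fintype.ofFinite L
  rw [ev, ev, finsum_eq_sum_of_fintype, finsum_eq_sum_of_fintype, Matrix.mul_sum, Matrix.sum_mul]
  apply Finset.sum_congr rfl
  intro t _
  rw [Matrix.mul_smul, h, Matrix.smul_mul]

/-- irreducible representations of `D` with equal characters are conjugate -/
theorem W_conj (hF : GoodF ℓ F) (hf : SBlk Y f) (hY : Y.Normal) (hL : Loc ℓ Y R S)
    (hρ : IsIrr ρ) (hφ : actF (fun t : ↥(Y ⊓ S) => f t) (tr ρ) = tr ρ) (hYM : Y ≤ M)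
    (hMX : M ≤ XF f Y) (hW : IrrD f Y M W) {W' : (X → F) →ₗ[F] Matrix (Fin m) (Fin m) F}
    (hW' : IrrD f Y M W') (h : omW f Y M W = omW f Y M W') :
    ∃ A : Matrix (Fin m) (Fin m) F, IsUnit A ∧ ∀ d, DE f Y M d → A * W d = W' d * A := by
  obtain ⟨ψ, hψ⟩ := exists_psi hF hf hY hL hρ hφ hYM hMX hW
  obtain ⟨ψ', hψ'⟩ := exists_psi hF hf hY hL hρ hφ hYM hMX hW'
  have hmem : ∀ g : ↥(M.subgroupOf S), io M S g ∈ M := fun g => Subgroup.mem_subgroupOf.1 g.2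
  have hex : ∀ g : ↥(M.subgroupOf S), ∃ u u', IsUnitOver f Y (io M S g) u u' :=
    fun g => (mem_XF hf hY).1 (hMX (hmem g))
  choose U U' hU using hex
  have htr : tr ψ = tr ψ' := by
    rw [tr_psi hYM hU hψ, tr_psi hYM hU hψ', h]
  obtain ⟨P, Q, -, hPQ, hQP, hP⟩ := ibc ℓ F hF ↥(M.subgroupOf S) _ _ ψ ψ'
    (psi_irr hF hf hY hL hρ hφ hYM hMX hW hψ) (psi_irr hF hf hY hL hρ hφ hYM hMX hW' hψ') htr
  have hQ : ∀ t, Q * ψ' t = ψ t * Q := by
    intro t
    calc Q * ψ' t = Q * (ψ' t * P) * Q := by rw [mul_assoc, mul_assoc, hPQ, mul_one]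
      _ = (Q * P) * ψ t * Q := by rw [← hP]; simp only [mul_assoc]
      _ = ψ t * Q := by rw [hQP, one_mul]
  obtain ⟨q, hq⟩ := comm_kr (m := m) hρ (P := P) (by
    intro t
    rw [← psi_Y hF hf hY hL hρ hφ hYM hW hψ, hP, psi_Y hF hf hY hL hρ hφ hYM hW' hψ',
      psi_Y hF hf hY hL hρ hφ hYM hW hψ])
  obtain ⟨q', hq'⟩ := comm_kr (m := m) hρ (P := Q) (by
    intro t
    rw [← psi_Y hF hf hY hL hρ hφ hYM hW' hψ', hQ, psi_Y hF hf hY hL hρ hφ hYM hW hψ,
      psi_Y hF hf hY hL hρ hφ hYM hW' hψ'])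
  refine ⟨q, ?_, ?_⟩
  · have h1 : q * q' = 1 := by
      apply H74.kr_one_inj_right hρ.1
      rw [H74.kr_one, ← hPQ, hq, hq', H74.kr_mul, mul_one]
    exact IsUnit.of_mul_eq_one q' h1
  · intro d hd
    apply H74.kr_one_inj_right hρ.1
    have h1 := inter_ev hP (fun t => br R d (io M S t))
    rw [psi_DE hF hf hY hL hρ hφ hYM hMX hW hψ hd, psi_DE hF hf hY hL hρ hφ hYM hMX hW' hψ' hd, hq,
      H74.kr_mul, H74.kr_mul, mul_one] at h1
    exact h1

/-- existence of the scalar `c_W` -/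
theorem exists_sW (hf : SBlk Y f) (hY : Y.Normal) (hM : M.Normal) (hYM : Y ≤ M)
    (hW : IrrD f Y M W) {x y : X} (hk : x * y * x⁻¹ * y⁻¹ ∈ M) {u u' : X → F}
    (hu : IsUnitOver f Y (x * y * x⁻¹ * y⁻¹) u u') {A B : Matrix (Fin m) (Fin m) F}
    (hA : ImpW f Y M W x A) (hB : ImpW f Y M W y B) : ∃ c : F, A * B = c • (W u * (B * A)) := by
  have huD := CE_DE hYM hk hu.left
  have huD' := CE_DE hYM (M.inv_mem hk) hu.right
  have hWuu : W u * W u' = 1 := by rw [← hW.mul _ _ huD huD', hu.mul, hW.one]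
  obtain ⟨A1, hA1⟩ := hA.1
  obtain ⟨B1, hB1⟩ := hB.1
  -- the inverse
  obtain ⟨Ni, hNi⟩ : ∃ Ni : Matrix (Fin m) (Fin m) F, Ni =
    (A1⁻¹ : (Matrix (Fin m) (Fin m) F)ˣ) * (B1⁻¹ : (Matrix (Fin m) (Fin m) F)ˣ) * W u' := ⟨_, rfl⟩
  have hWuu' : W u' * W u = 1 := mul_eq_one_comm.1 hWuu
  have hN1 : Ni * (W u * (B * A)) = 1 := by
    rw [hNi, ← hA1, ← hB1]
    calc _ = (↑A1⁻¹ : Matrix (Fin m) (Fin m) F) * ((↑B1⁻¹ : Matrix (Fin m) (Fin m) F) *
          (W u' * W u) * (B1 : Matrix (Fin m) (Fin m) F)) * (A1 : Matrix (Fin m) (Fin m) F) := by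
          simp only [mul_assoc]
      _ = 1 := by
        rw [hWuu', mul_one, Units.inv_mul, mul_one, Units.inv_mul]
  have hN2 : W u * (B * A) * Ni = 1 := mul_eq_one_comm.1 hN1
  have h1 : ∀ d, DE f Y M d → A * B * W d = W (cjF (x * y) d) * (A * B) := by
    intro d hd
    rw [mul_assoc, hB.2 d hd, ← mul_assoc, hA.2 _ (DE_cj hf hY hM hd y), cjF_cjF, mul_assoc]
  have h2 : ∀ d, DE f Y M d → W u * (B * A) * W d = W (cjF (x * y) d) * (W u * (B * A)) := by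
    intro d hd
    have h3 : W u * W (cjF (y * x) d) = W (cjF (x * y) d) * W u := by
      have hd' := DE_cj hf hY hM hd (y * x)
      rw [← hW.mul _ _ huD hd', cj_unit hf hY hu hd'.cc,
        hW.mul _ _ (DE_cj hf hY hM hd' _) huD, cjF_cjF]
      congr 3
      group
    calc W u * (B * A) * W d = W u * (B * (A * W d)) := by simp only [mul_assoc]
      _ = W u * (W (cjF y (cjF x d)) * B * A) := by
        rw [hA.2 d hd, ← mul_assoc B, hB.2 _ (DE_cj hf hY hM hd x)]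
      _ = W u * W (cjF (y * x) d) * (B * A) := by rw [cjF_cjF]; simp only [mul_assoc]
      _ = _ := by rw [h3]; simp only [mul_assoc]
  have h3 : ∀ d, DE f Y M d → Ni * W (cjF (x * y) d) = W d * Ni := by
    intro d hd
    calc Ni * W (cjF (x * y) d) = Ni * (W (cjF (x * y) d) * (W u * (B * A))) * Ni := by
          rw [mul_assoc, mul_assoc, hN2, mul_one]
      _ = (Ni * (W u * (B * A))) * W d * Ni := by rw [← h2 d hd]; simp only [mul_assoc]
      _ = W d * Ni := by rw [hN1, one_mul]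
  obtain ⟨c, hc⟩ := scalar_of_comm hW (A := Ni * (A * B)) (by
    intro d hd
    rw [mul_assoc, h1 d hd, ← mul_assoc, h3 d hd, mul_assoc])
  refine ⟨c, ?_⟩
  calc A * B = W u * (B * A) * Ni * (A * B) := by rw [hN2, one_mul]
    _ = W u * (B * A) * (Ni * (A * B)) := by simp only [mul_assoc]
    _ = c • (W u * (B * A)) := by
      rw [hc, Matrix.scalar_apply, ← Matrix.smul_one_eq_diagonal, Matrix.mul_smul, mul_one]

/-- the scalar of `ρ * W` -/
theorem isTC (hF : GoodF ℓ F) (hf : SBlk Y f) (hY : Y.Normal) (hL : Loc ℓ Y R S)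
    [(M.subgroupOf S).Normal]
    (hρ : IsIrr ρ) (hφ : actF (fun t : ↥(Y ⊓ S) => f t) (tr ρ) = tr ρ) (hYM : Y ≤ M)
    (hMX : M ≤ XF f Y) (hW : IrrD f Y M W)
    {ψ : ↥(M.subgroupOf S) →* Matrix (Fin (n * m)) (Fin (n * m)) F}
    (hψ : IsK f Y R S M ρ W ψ) {x y : S} (hk : (x * y * x⁻¹ * y⁻¹ : X) ∈ M) {u u' : X → F}
    (hu : IsUnitOver f Y (x * y * x⁻¹ * y⁻¹ : X) u u') {A B : Matrix (Fin n) (Fin n) F}
    (hA : ImpJ ρ (x : X) A) (hB : ImpJ ρ (y : X) B) {A' B' : Matrix (Fin m) (Fin m) F}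
    (hA' : ImpW f Y M W (x : X) A') (hB' : ImpW f Y M W (y : X) B') {c c' : F}
    (hc : ev ρ (fun t : ↥(Y ⊓ S) => br R u (x * y * x⁻¹ * y⁻¹ * t : X)) * (A * B) = c • (B * A))
    (hc' : A' * B' = c' • (W u * (B' * A'))) :
    IsTC (M.subgroupOf S) (tr ψ) x y (c * c') := by
  have hkS : x * y * x⁻¹ * y⁻¹ ∈ M.subgroupOf S := Subgroup.mem_subgroupOf.2 hk
  have hkr : ∀ {C : Matrix (Fin n) (Fin n) F} {C' : Matrix (Fin m) (Fin m) F}, IsUnit C →
      IsUnit C' → IsUnit (kr C C') := by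
    intro C C' h h'
    obtain ⟨C, rfl⟩ := h
    obtain ⟨C', rfl⟩ := h'
    apply IsUnit.of_mul_eq_one (kr (C⁻¹ : (Matrix (Fin n) (Fin n) F)ˣ)
      (C'⁻¹ : (Matrix (Fin m) (Fin m) F)ˣ) : Matrix (Fin (n * m)) (Fin (n * m)) F)
    rw [H74.kr_mul, Units.mul_inv, Units.mul_inv, H74.kr_one]
  have hint : ∀ (z : S) (C : Matrix (Fin n) (Fin n) F) (C' : Matrix (Fin m) (Fin m) F),
      ImpJ ρ (z : X) C → ImpW f Y M W (z : X) C' → ∀ g : ↥(M.subgroupOf S),
      kr C C' * ψ g = ψ (MulAut.conjNormal z g) * kr C C' := by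
    intro z C C' hC hC' g
    have hgM : io M S g ∈ M := Subgroup.mem_subgroupOf.1 g.2
    obtain ⟨v, v', hv⟩ := (mem_XF hf hY).1 (hMX hgM)
    have h1 := IsK_cj hf hY hL hψ z g v v' hv
    have h2 : ψ (MulAut.conjNormal z g) = kr (EM Y S R (ρ.comp (cjH hY z.2)) (io M S g) v')
      ((W ∘ₗ cjL F (z : X)) v) := h1
    rw [h2, hψ g v v' hv, H74.kr_mul, H74.kr_mul]
    have h3 : C' * W v = (W ∘ₗ cjL F (z : X)) v * C' := hC'.2 v (CE_DE hYM hgM hv.left)
    have h4 : C * EM Y S R ρ (io M S g) v' = EM Y S R (ρ.comp (cjH hY z.2)) (io M S g) v' * C := by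
      unfold EM
      rw [ev_cjH]
      exact (ev_res_cj (loc_norm hY z.2) hC _).symm
    rw [h3]
    congr 1
  refine ⟨n * m, ψ, kr A A', kr B B', hkS, psi_irr hF hf hY hL hρ hφ hYM hMX hW hψ, rfl,
    hkr hA.1 hA'.1, hkr hB.1 hB'.1, hint x A A' hA hA', hint y B B' hB hB', ?_⟩
  -- the scalar
  have hkS' : (x * y * x⁻¹ * y⁻¹ : X) ∈ S := (x * y * x⁻¹ * y⁻¹ : S).2
  have h1 : ψ ⟨x * y * x⁻¹ * y⁻¹, hkS⟩ = kr (EM Y S R ρ (x * y * x⁻¹ * y⁻¹ : X) u') (W u) :=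
    hψ ⟨x * y * x⁻¹ * y⁻¹, hkS⟩ u u' hu
  have h2 : A * B = c • (EM Y S R ρ (x * y * x⁻¹ * y⁻¹ : X) u' * (B * A)) := by
    rw [← Matrix.mul_smul, ← hc, ← mul_assoc]
    have h3 := ev_res_mul ρ (rt_supp hY hL hkS' hu.right) (lt (x * y * x⁻¹ * y⁻¹ : X)⁻¹ (br R u))
    have h4 : mulF (rt (x * y * x⁻¹ * y⁻¹ : X) (br R u'))
        (lt (x * y * x⁻¹ * y⁻¹ : X)⁻¹ (br R u)) = br R f := by
      apply toMA_injective
      rw [toMA_mulF, toMA_rt, toMA_lt]
      calc toMA (br R u') * sg (x * y * x⁻¹ * y⁻¹ : X) *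
            (sg (x * y * x⁻¹ * y⁻¹ : X)⁻¹ * toMA (br R u)) =
          toMA (br R u') * (sg (x * y * x⁻¹ * y⁻¹ : X) * sg (x * y * x⁻¹ * y⁻¹ : X)⁻¹) *
            toMA (br R u) := by simp only [mul_assoc]
        _ = toMA (br R f) := by
          rw [sg_mul_inv, mul_one, ← toMA_mulF, ← br_mulF_Y hF hL hu.right.inv hu.left.inv,
            unit_symm hf hY hu]
    rw [h4, ev_br_one hF hf hL hρ hφ] at h3
    have h5 : (fun t : ↥(Y ⊓ S) => lt (x * y * x⁻¹ * y⁻¹ : X)⁻¹ (br R u) t) =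
        fun t : ↥(Y ⊓ S) => br R u (x * y * x⁻¹ * y⁻¹ * t : X) := by
      funext t
      show br R u ((x * y * x⁻¹ * y⁻¹ : X)⁻¹⁻¹ * t) = _
      rw [inv_inv]
    rw [h5] at h3
    show A * B = EM Y S R ρ (x * y * x⁻¹ * y⁻¹ : X) u' *
      ev ρ (fun t : ↥(Y ⊓ S) => br R u (x * y * x⁻¹ * y⁻¹ * t : X)) * (A * B)
    unfold EM
    rw [← h3, one_mul]
  rw [h1, H74.kr_mul, H74.kr_mul, H74.kr_mul, hc', h2, H74.kr_smul_left, H74.kr_smul_right,
    smul_smul, Matrix.mul_assoc, Matrix.mul_assoc]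

end scal

/-! ### the factorisation -/

theorem finsum_prod {α β : Type} {s : Set α} {t : Set β} (hs : s.Finite) (ht : t.Finite)
    (g : α → ℂ) (h : β → ℂ) :
    ∑ᶠ p ∈ s ×ˢ t, h p.2 * g p.1 = (∑ᶠ b ∈ t, h b) * ∑ᶠ a ∈ s, g a := by
  classical
  obtain ⟨s', rfl⟩ := hs.exists_finset_coe
  obtain ⟨t', rfl⟩ := ht.exists_finset_coe
  rw [← Finset.coe_product, finsum_mem_coe_finset, finsum_mem_coe_finset, finsum_mem_coe_finset,
    Finset.sum_mul_sum, Finset.sum_product, Finset.sum_comm]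

theorem tfa (hscu : ScuStmt) : TfaStmt := by
  intro ℓ F _ hF τ hτ X _ _ Y hY f hf R S hL M _ hM hYM hMX e he hef hes x y hk u u' hu
  classical
  have hmem : ∀ g : ↥(M.subgroupOf S), io M S g ∈ M := fun g => Subgroup.mem_subgroupOf.1 g.2
  have hex : ∀ g : ↥(M.subgroupOf S), ∃ u u', IsUnitOver f Y (io M S g) u u' :=
    fun g => (mem_XF hf hY).1 (hMX (hmem g))
  choose U U' hU using hex
  have hRr : R ≤ (io M S).range := fun r hr => io_range.2 ⟨hYM (hL.le hr), hL.leS hr⟩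
  have hNr : ∀ t, io M S t ∈ Subgroup.normalizer (R : Set X) := fun t => hL.norm (t : S).2
  have heD : DE f Y M e := by
    refine ⟨⟨fun n _ h => he.1 h n, ?_⟩, hes⟩
    rw [H20.mulF_comm_of_cl hf.cl, hef]
  -- fixed characters
  have hfix : ∀ (n m : ℕ) (ρ : ↥(Y ⊓ S) →* Matrix (Fin n) (Fin n) F)
      (W : (X → F) →ₗ[F] Matrix (Fin m) (Fin m) F), IsIrr ρ →
      actF (fun t : ↥(Y ⊓ S) => f t) (tr ρ) = tr ρ → IrrD f Y M W → ∀ z : S,
      ((∀ l, PPc Y R S M U U' (tr ρ) (omW f Y M W) (MulAut.conjNormal z l) =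
        PPc Y R S M U U' (tr ρ) (omW f Y M W) l) ↔
      (∀ a a' : ↥(Y ⊓ S), (a' : X) = z * a * (z : X)⁻¹ → tr ρ a' = tr ρ a) ∧
        ∀ d, DE f Y M d → omW f Y M W (cjF (z : X) d) = omW f Y M W d) := by
    intro n m ρ W hρ hφ hW z
    obtain ⟨ψ, hψ⟩ := exists_psi hF hf hY hL hρ hφ hYM hMX hW
    have hψz := IsK_cj hf hY hL hψ z
    have hρz := irr_cjH (S := S) hY z.2 hρ
    have hφz := act_cjH (S := S) hf hY z.2 hρ hφ
    have hWz := IrrD_cj hf hY hM hW (z : X)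
    have h1 := tr_psi hYM hU hψ
    have h2 := tr_psi hYM hU hψz
    have h3 : ∀ l, tr ψ (MulAut.conjNormal z l) =
      tr (ψ.comp (MulAut.conjNormal z : MulAut ↥(M.subgroupOf S)).toMonoidHom) l := fun l => rfl
    constructor
    · intro h
      rw [← h1] at h
      have h4 : tr (ψ.comp (MulAut.conjNormal z : MulAut ↥(M.subgroupOf S)).toMonoidHom) = tr ψ := by
        funext l
        rw [← h3, h l]
      obtain ⟨h5, h6⟩ := sep hF hf hY hL hYM hMX hρz hφz hWz hρ hφ hW hψz hψ h4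
      refine ⟨?_, ?_⟩
      · intro a a' ha
        have h7 := congrFun h5 a
        have h8 : a' = cjH hY z.2 a := Subtype.ext ha
        rw [h8]
        exact h7
      · intro d hd
        have h7 := congrFun h6 d
        rw [omW_of hd] at h7
        rw [omW_of (DE_cj hf hY hM hd z)]
        exact h7
    · rintro ⟨h5, h6⟩ l
      rw [← h1, h3, h2, h1]
      have h7 : tr (ρ.comp (cjH hY z.2)) = tr ρ := by
        funext a
        exact h5 a _ rfl
      have h8 : omW f Y M (W ∘ₗ cjL F (z : X)) = omW f Y M W := by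
        funext d
        by_cases hd : DE f Y M d
        · rw [← h6 d hd, omW_of hd, omW_of (DE_cj hf hY hM hd z)]
          rfl
        · rw [omW_not hd, omW_not hd]
      rw [h7, h8]
  -- the idempotent `e`
  have hee : ∀ (m : ℕ) (W : (X → F) →ₗ[F] Matrix (Fin m) (Fin m) F), IrrD f Y M W →
      ((∀ d, DE f Y M d → omW f Y M W (mulF e d) = omW f Y M W d) ↔ W e = 1) := by
    intro m W hW
    obtain ⟨w, hw⟩ := scalar_of_comm hW (A := W e) (by
      intro d hd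
      rw [← hW.mul _ _ heD hd, ← hW.mul _ _ hd heD, H20.mulF_comm_of_cl he.1])
    have hed : ∀ d, DE f Y M d → DE f Y M (mulF e d) := by
      intro d hd
      refine ⟨heD.cc.mul hd.cc, ?_⟩
      intro h hh
      apply Pool.Agent.PP.J74.mulF_supp (S := (M : Set X)) (T := (M : Set X)) heD.supp hd.supp
      rintro s hs t ht rfl
      exact hh (M.mul_mem hs ht)
    have h1 : ∀ d, DE f Y M d → omW f Y M W (mulF e d) = w * omW f Y M W d := by
      intro d hd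
      rw [omW_of (hed d hd), omW_of hd, hW.mul _ _ heD hd, hw, Matrix.scalar_apply,
        ← Matrix.smul_one_eq_diagonal, Matrix.smul_mul, Matrix.one_mul, Matrix.trace_smul,
        smul_eq_mul]
    constructor
    · intro h
      obtain ⟨d0, hd0, hne⟩ := W_tr_ne hW
      have h2 := h1 d0 hd0
      rw [h d0 hd0, omW_of hd0] at h2
      have h3 : w = 1 := by
        have h4 : (1 - w) * (W d0).trace = 0 := by rw [sub_mul, one_mul, ← h2, sub_self]
        rcases mul_eq_zero.1 h4 with h5 | h5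
        · exact (sub_eq_zero.1 h5).symm
        · exact absurd h5 hne
      rw [hw, h3, map_one]
    · intro h d hd
      rw [omW_of (hed d hd), omW_of hd, hW.mul _ _ heD hd, h, one_mul]
  -- the bijection
  have hbij : Set.BijOn (fun p : (↥(Y ⊓ S) → F) × ((X → F) → F) => PPc Y R S M U U' p.1 p.2)
      (phiS Y S f x y ×ˢ omS f Y M e x y)
      (phiSet (M.subgroupOf S) (fun t : S => e t) x y) := by
    refine ⟨?_, ?_, ?_⟩
    · rintro ⟨φ, ω⟩ ⟨⟨⟨n, ρ, hρ, rfl⟩, hφ, hφx, hφy⟩, ⟨⟨m, W, hW, rfl⟩, hωe, hωx, hωy⟩⟩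
      obtain ⟨ψ, hψ⟩ := exists_psi hF hf hY hL hρ hφ hYM hMX hW
      have h1 := tr_psi hYM hU hψ
      have hirr := psi_irr hF hf hY hL hρ hφ hYM hMX hW hψ
      refine ⟨⟨_, ψ, hirr, h1.symm⟩, ?_,
        (hfix n m ρ W hρ hφ hW x).2 ⟨hφx, hωx⟩, (hfix n m ρ W hρ hφ hW y).2 ⟨hφy, hωy⟩⟩
      show actF (fun t : ↥(M.subgroupOf S) => e (io M S t)) (PPc Y R S M U U' (tr ρ) (omW f Y M W)) =
        PPc Y R S M U U' (tr ρ) (omW f Y M W)
      rw [← h1]
      apply act_of_ev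
      rw [comp_br (io M S) hF (io_inj M S) hL.pgrp hRr hNr hirr (fun s t => he.1 _ _),
        psi_DE hF hf hY hL hρ hφ hYM hMX hW hψ heD, (hee m W hW).1 hωe, H74.kr_one]
    · rintro ⟨φ, ω⟩ ⟨⟨⟨n, ρ, hρ, rfl⟩, hφ, -, -⟩, ⟨⟨m, W, hW, rfl⟩, -, -, -⟩⟩ ⟨φ', ω'⟩
        ⟨⟨⟨n', ρ', hρ', rfl⟩, hφ', -, -⟩, ⟨⟨m', W', hW', rfl⟩, -, -, -⟩⟩ h
      obtain ⟨ψ, hψ⟩ := exists_psi hF hf hY hL hρ hφ hYM hMX hW
      obtain ⟨ψ', hψ'⟩ := exists_psi hF hf hY hL hρ' hφ' hYM hMX hW'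
      have h1 := tr_psi hYM hU hψ
      have h2 := tr_psi hYM hU hψ'
      obtain ⟨h3, h4⟩ := sep hF hf hY hL hYM hMX hρ hφ hW hρ' hφ' hW' hψ hψ' (by
        rw [h1, h2]
        exact h)
      exact Prod.ext h3 h4
    · rintro _ ⟨⟨N, ψ, hψ, rfl⟩, hψe, hψx, hψy⟩
      have hcl : IsCl (fun t : ↥(M.subgroupOf S) => e (io M S t)) := by
        intro s t
        show e (io M S (t * s * t⁻¹)) = e (io M S s)
        rw [map_mul, map_mul, map_inv, he.1]
      have hev : ev ψ (fun t => e (io M S t)) = 1 := by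
        obtain ⟨c, hc, hc2, -⟩ := eig F ↥(M.subgroupOf S) N ψ hψ _ hcl
        have h5 : actF (fun t : ↥(M.subgroupOf S) => e (io M S t)) (tr ψ) = tr ψ := hψe
        rw [h5] at hc2
        obtain ⟨t, ht⟩ := H33.tr_ne_zero hψ
        have h3 := congrFun hc2 t
        rw [Pi.smul_apply, smul_eq_mul] at h3
        have h4 : c = 1 := by
          have : (1 - c) * tr ψ t = 0 := by rw [sub_mul, one_mul, ← h3, sub_self]
          rcases mul_eq_zero.1 this with h5 | h5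
          · exact (sub_eq_zero.1 h5).symm
          · exact absurd h5 ht
        rw [hc, h4, map_one]
      have hes' : ∀ t, t ∉ (io M S).range → br R e t = 0 := br_supp hL hes
      have hevb : ev ψ (fun t => br R e (io M S t)) = 1 := by
        rw [← comp_br (io M S) hF (io_inj M S) hL.pgrp hRr hNr hψ (fun s t => he.1 _ _), hev]
      have hfb : ev ψ (fun t => br R f (io M S t)) = 1 := by
        have h1 := comp_ev_mul (io M S) (io_inj M S) ψ hes' (br R f)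
        rw [← br_mulF_Y hF hL heD.cc.inv (fun n _ h => hf.cl h n), hef, hevb, one_mul] at h1
        exact h1.symm
      have hf1 : ev ψ (fun t => f (io M S t)) = 1 := by
        rw [comp_br (io M S) hF (io_inj M S) hL.pgrp hRr hNr hψ (fun s t => hf.cl _ _), hfb]
      obtain ⟨n, m, ρ, W, T, T', hρ, hφ, hW, hTT, hTT', hψT, hdT⟩ :=
        exhaust hF hf hY hL hYM hMX hψ hf1
      have htr : tr ψ = PPc Y R S M U U' (tr ρ) (omW f Y M W) := by
        obtain ⟨ψ', hψ'⟩ := exists_psi hF hf hY hL hρ hφ hYM hMX hW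
        rw [← tr_psi hYM hU hψ']
        funext g
        show (ψ g).trace = (ψ' g).trace
        rw [hψT g _ _ (hU g), hψ' g _ _ (hU g), Matrix.trace_mul_comm, ← Matrix.mul_assoc, hTT',
          Matrix.one_mul]
        rfl
      have hWe : W e = 1 := by
        have h1 := hdT e heD
        rw [hevb] at h1
        apply H74.kr_one_inj_right hρ.1
        rw [H74.kr_one]
        calc kr (1 : Matrix (Fin n) (Fin n) F) (W e) =
              (T' * T) * kr (1 : Matrix (Fin n) (Fin n) F) (W e) * (T' * T) := by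
              rw [hTT', one_mul, mul_one]
          _ = T' * (T * kr (1 : Matrix (Fin n) (Fin n) F) (W e) * T') * T := by
              simp only [Matrix.mul_assoc]
          _ = 1 := by rw [← h1, Matrix.mul_one, hTT']
      rw [htr] at hψx hψy
      have h5 := (hfix n m ρ W hρ hφ hW x).1 hψx
      have h6 := (hfix n m ρ W hρ hφ hW y).1 hψy
      refine ⟨(tr ρ, omW f Y M W), ⟨⟨⟨n, ρ, hρ, rfl⟩, hφ, h5.1, h6.1⟩,
        ⟨⟨m, W, hW, rfl⟩, (hee m W hW).2 hWe, h5.2, h6.2⟩⟩, htr.symm⟩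
  -- the values
  have hval : ∀ p ∈ phiS Y S f x y ×ˢ omS f Y M e x y,
      τ (sW f Y M p.2 x y u) * τ (sc Y S R p.1 x y u) =
        τ (tc (M.subgroupOf S) (PPc Y R S M U U' p.1 p.2) x y) := by
    rintro ⟨φ, ω⟩ hp
    have hPm := hbij.mapsTo hp
    obtain ⟨hφS, hωS⟩ := hp
    have hφS0 := hφS
    have hωS0 := hωS
    obtain ⟨⟨n, ρ, hρ, rfl⟩, hφ, hφx, hφy⟩ := hφS
    obtain ⟨⟨m, W, hW, rfl⟩, hωe, hωx, hωy⟩ := hωS
    obtain ⟨h1, h2, -⟩ := hscu ℓ F hF X Y hY f hf R S hL x x.2 y y.2 u u' hu (tr ρ) hφS0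
    have hx8 : ∀ z : S, (∀ d, DE f Y M d → omW f Y M W (cjF (z : X) d) = omW f Y M W d) →
        ∃ A, ImpW f Y M W (z : X) A := by
      intro z hz
      have h8 : omW f Y M W = omW f Y M (W ∘ₗ cjL F (z : X)) := by
        funext d
        by_cases hd : DE f Y M d
        · rw [← hz d hd, omW_of hd, omW_of (DE_cj hf hY hM hd z)]
          rfl
        · rw [omW_not hd, omW_not hd]
      obtain ⟨A, hA, hA'⟩ := W_conj hF hf hY hL hρ hφ hYM hMX hW
        (IrrD_cj hf hY hM hW (z : X)) h8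
      exact ⟨A, hA, hA'⟩
    obtain ⟨A', hA'⟩ := hx8 x hωx
    obtain ⟨B', hB'⟩ := hx8 y hωy
    obtain ⟨c', hc'⟩ := exists_sW hf hY hM hYM hW hk hu hA' hB'
    have h3 : ∃ c, IsSW f Y M (omW f Y M W) (x : X) (y : X) u c :=
      ⟨c', m, W, A', B', hW, rfl, hA', hB', hc'⟩
    have h4 : sW f Y M (omW f Y M W) (x : X) (y : X) u = h3.choose := by rw [sW, dif_pos h3]
    have h5 : IsSW f Y M (omW f Y M W) (x : X) (y : X) u
        (sW f Y M (omW f Y M W) (x : X) (y : X) u) := by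
      rw [h4]
      exact h3.choose_spec
    obtain ⟨n1, ρ1, A1, B1, hρ1, hφ1, hA1, hB1, hc1⟩ := h2
    obtain ⟨m2, W2, A2, B2, hW2, hω2, hA2, hB2, hc2⟩ := h5
    have hφ1' : actF (fun t : ↥(Y ⊓ S) => f t) (tr ρ1) = tr ρ1 := by rw [hφ1]; exact hφ
    obtain ⟨ψ, hψ⟩ := exists_psi hF hf hY hL hρ1 hφ1' hYM hMX hW2
    have h6 := isTC hF hf hY hL hρ1 hφ1' hYM hMX hW2 hψ hk hu hA1 hB1 hA2 hB2 hc1 hc2
    have h7 : tr ψ = PPc Y R S M U U' (tr ρ) (omW f Y M W) := by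
      rw [tr_psi hYM hU hψ, hφ1]
      congr 1
      exact hω2.symm
    rw [h7] at h6
    have hkS : x * y * x⁻¹ * y⁻¹ ∈ M.subgroupOf S := Subgroup.mem_subgroupOf.2 hk
    obtain ⟨h8, -, h9⟩ := Pool.Agent.Helper58_CL.clu ibc ℓ F hF S (M.subgroupOf S)
      (PPc Y R S M U U' (tr ρ) (omW f Y M W)) hPm.1 x y hkS hPm.2.2.1 hPm.2.2.2
    have h10 := h9 _ h6
    show τ (sW f Y M (omW f Y M W) (x : X) (y : X) u) * τ (sc Y S R (tr ρ) (x : X) (y : X) u) =
      τ (tc (M.subgroupOf S) (PPc Y R S M U U' (tr ρ) (omW f Y M W)) x y)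
    rw [← h10]
    have h11 : sW f Y M (omW f Y M W) (x : X) (y : X) u ≠ 0 := by
      intro h0
      apply h8
      rw [← h10, h0, mul_zero]
    rw [hτ.mul _ _ h1 h11, mul_comm]
  -- the sum
  unfold csum BB SS
  rw [← finsum_mem_eq_of_bijOn _ hbij hval]
  have hfinS : (phiS Y S f (x : X) (y : X)).Finite :=
    (ibf ℓ F hF ↥(Y ⊓ S)).1.subset fun φ hφ => hφ.1
  by_cases hne : (phiS Y S f (x : X) (y : X)).Nonempty
  · obtain ⟨φ0, hφ0⟩ := hne
    have hfinT : (omS f Y M e (x : X) (y : X)).Finite := by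
      have h1 : (phiSet (M.subgroupOf S) (fun t : S => e t) x y).Finite :=
        (ibf ℓ F hF ↥(M.subgroupOf S)).1.subset fun φ hφ => hφ.1
      apply Set.Finite.of_injOn (f := fun ω => PPc Y R S M U U' φ0 ω) _ _ h1
      · intro ω hω
        exact hbij.mapsTo (show (φ0, ω) ∈ _ from ⟨hφ0, hω⟩)
      · intro ω hω ω' hω' h
        have h2 := hbij.injOn (show (φ0, ω) ∈ phiS Y S f (x : X) (y : X) ×ˢ omS f Y M e x y from
          ⟨hφ0, hω⟩) (show (φ0, ω') ∈ phiS Y S f (x : X) (y : X) ×ˢ omS f Y M e x y from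
          ⟨hφ0, hω'⟩) h
        exact (Prod.mk.injEq _ _ _ _ ▸ h2).2
    exact finsum_prod hfinS hfinT (fun φ => τ (sc Y S R φ (x : X) (y : X) u))
      (fun ω => τ (sW f Y M ω (x : X) (y : X) u))
  · rw [Set.not_nonempty_iff_eq_empty] at hne
    rw [hne, Set.empty_prod, finsum_mem_empty, finsum_mem_empty, mul_zero]

end Pool.Agent.PP.H58
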