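import Pool.Agent.Helper74_PP.Loc
import Pool.Agent.Helper20_PP.Mov

/-!
WJC (AWC_J, J5): in the irreducible representations of the algebra `D = C ∩ F M` the space `J₁ C`
acts as zero and `C₁` acts through the residue.  Decomposition of the elements of `D` along the
cosets of `Y`.
-/

open scoped BigOperators

set_option linter.unusedSectionVars false

noncomputable section

namespace Pool.Agent.PP.H58

open Pool.Agent.PP

section pr

variable {F X : Type} [Field F] [Group X]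

/-- the projection onto the functions supported on `M` -/
def prM (F : Type) [Field F] {X : Type} (M : Set X) : (X → F) →ₗ[F] (X → F) where
  toFun u := open Classical in fun h => if h ∈ M then u h else 0
  map_add' u v := by
    classical
    funext h
    by_cases hh : h ∈ M
    · simp [hh]
    · simp [hh]
  map_smul' c u := by
    classical
    funext h
    by_cases hh : h ∈ M
    · simp [hh]
    · simp [hh]

theorem prM_mem {M : Set X} {u : X → F} {h : X} (hh : h ∈ M) : prM F M u h = u h := by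
  classical
  show (if h ∈ M then u h else 0) = _
  rw [if_pos hh]

theorem prM_not {M : Set X} {u : X → F} {h : X} (hh : h ∉ M) : prM F M u h = 0 := by
  classical
  show (if h ∈ M then u h else 0) = _
  rw [if_neg hh]

theorem prM_of_supp {M : Set X} {u : X → F} (hu : ∀ h, h ∉ M → u h = 0) : prM F M u = u := by
  funext h
  by_cases hh : h ∈ M
  · rw [prM_mem hh]
  · rw [prM_not hh, hu h hh]

variable [Finite X] {Y : Subgroup X} {f : X → F}

theorem prM_mul {M : Set X} (h1 : ∀ t ∈ Y, ∀ h, t⁻¹ * h ∈ M ↔ h ∈ M) {z : X → F}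
    (hz : ∀ h, h ∉ Y → z h = 0) (c : X → F) : prM F M (mulF z c) = mulF z (prM F M c) := by
  have hfin := Fintype.ofFinite X
  funext h
  by_cases hh : h ∈ M
  · rw [prM_mem hh, mulF, mulF, finsum_eq_sum_of_fintype, finsum_eq_sum_of_fintype]
    apply Finset.sum_congr rfl
    intro t _
    by_cases ht : t ∈ Y
    · rw [prM_mem ((h1 t ht h).2 hh)]
    · rw [hz t ht, zero_mul, zero_mul]
  · rw [prM_not hh, mulF, finsum_eq_sum_of_fintype]
    symm
    apply Finset.sum_eq_zero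
    intro t _
    by_cases ht : t ∈ Y
    · rw [prM_not (fun hc => hh ((h1 t ht h).1 hc)), mul_zero]
    · rw [hz t ht, zero_mul]

theorem prM_CC (hf : SBlk Y f) {M : Set X} (h1 : ∀ t ∈ Y, ∀ h, t⁻¹ * h ∈ M ↔ h ∈ M)
    (h2 : ∀ n ∈ Y, ∀ h, n * h * n⁻¹ ∈ M ↔ h ∈ M) {c : X → F} (hc : CC f Y c) :
    CC f Y (prM F M c) := by
  refine ⟨fun n hn h => ?_, ?_⟩
  · by_cases hh : h ∈ M
    · rw [prM_mem hh, prM_mem ((h2 n hn h).2 hh), hc.inv n hn]
    · rw [prM_not hh, prM_not (fun h' => hh ((h2 n hn h).1 h'))]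
  · rw [← prM_mul h1 hf.supp, hc.abs]

/-- a coset of `Y` as a set -/
def cst (q : X ⧸ Y) : Set X := {h | (h : X ⧸ Y) = q}

omit [Finite X] in
theorem cst_1 (hY : Y.Normal) (q : X ⧸ Y) : ∀ t ∈ Y, ∀ h, t⁻¹ * h ∈ cst q ↔ h ∈ cst q := by
  intro t ht h
  have e : ((t⁻¹ * h : X) : X ⧸ Y) = (h : X ⧸ Y) := by
    rw [QuotientGroup.eq]
    have := hY.conj_mem t ht h⁻¹
    have e : (t⁻¹ * h)⁻¹ * h = h⁻¹ * t * h⁻¹⁻¹ := by group
    rwa [e]
  show ((t⁻¹ * h : X) : X ⧸ Y) = q ↔ (h : X ⧸ Y) = q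
  rw [e]

omit [Finite X] in
theorem cst_2 (hY : Y.Normal) (q : X ⧸ Y) : ∀ n ∈ Y, ∀ h, n * h * n⁻¹ ∈ cst q ↔ h ∈ cst q := by
  intro t ht h
  have e : ((t * h * t⁻¹ : X) : X ⧸ Y) = (h : X ⧸ Y) := by
    rw [QuotientGroup.eq]
    have := Y.mul_mem ht (hY.conj_mem _ (Y.inv_mem ht) h⁻¹)
    have e : (t * h * t⁻¹)⁻¹ * h = t * (h⁻¹ * t⁻¹ * h⁻¹⁻¹) := by group
    rwa [e]
  show ((t * h * t⁻¹ : X) : X ⧸ Y) = q ↔ (h : X ⧸ Y) = q
  rw [e]

theorem sum_cst [Fintype (X ⧸ Y)] (d : X → F) : ∑ q : X ⧸ Y, prM F (cst q) d = d := by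
  funext h
  rw [Finset.sum_apply, Finset.sum_eq_single (h : X ⧸ Y)]
  · exact prM_mem rfl
  · intro q _ hq
    exact prM_not (fun hc => hq hc.symm)
  · intro hx
    exact absurd (Finset.mem_univ _) hx

/-- the elements of `D` are sums of elements of the spaces `C_g` -/
theorem DE_span (hf : SBlk Y f) (hY : Y.Normal) {M : Subgroup X} (hYM : Y ≤ M) {d : X → F}
    (hd : DE f Y M d) : d ∈ Submodule.span F {c | ∃ g ∈ M, CE f Y g c} := by
  have hfin := Fintype.ofFinite (X ⧸ Y)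
  rw [← sum_cst (Y := Y) d]
  refine Submodule.sum_mem _ fun q _ => ?_
  obtain ⟨g, rfl⟩ := QuotientGroup.mk_surjective q
  by_cases hg : g ∈ M
  · apply Submodule.subset_span
    have h1 := prM_CC hf (cst_1 hY (g : X ⧸ Y)) (cst_2 hY (g : X ⧸ Y)) hd.cc
    refine ⟨g, hg, ⟨fun h hh => prM_not (fun hc => hh ?_), h1.inv, h1.abs⟩⟩
    exact QuotientGroup.eq.1 (Eq.symm hc)
  · have h0 : prM F (cst (g : X ⧸ Y)) d = 0 := by
      funext h
      by_cases hh : h ∈ cst (g : X ⧸ Y)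
      · rw [prM_mem hh]
        apply hd.supp
        intro hc
        apply hg
        have h3 : h⁻¹ * g ∈ Y := QuotientGroup.eq.1 hh
        have h4 := M.mul_mem hc (hYM h3)
        rwa [mul_inv_cancel_left] at h4
      · rw [prM_not hh]
        rfl
    rw [h0]
    exact Submodule.zero_mem _

theorem CE_DE {M : Subgroup X} (hYM : Y ≤ M) {g : X} (hg : g ∈ M) {u : X → F} (hu : CE f Y g u) :
    DE f Y M u := by
  refine ⟨⟨hu.inv, hu.abs⟩, fun h hh => hu.supp h fun hc => hh ?_⟩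
  have := M.mul_mem hg (hYM hc)
  rwa [mul_inv_cancel_left] at this

end pr

section wjc

variable {F X : Type} [Field F] [Group X] [Finite X] {Y M : Subgroup X} {f : X → F} {m : ℕ}
  {W : (X → F) →ₗ[F] Matrix (Fin m) (Fin m) F}

theorem comm_all (hW : IrrD f Y M W) {A : Matrix (Fin m) (Fin m) F}
    (hA : ∀ d, DE f Y M d → A * W d = W d * A) (B : Matrix (Fin m) (Fin m) F) : A * B = B * A := by
  have hB : B ∈ Submodule.span F (W '' {d | DE f Y M d}) := by rw [hW.irr]; trivial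
  induction hB using Submodule.span_induction with
  | mem x hx =>
    obtain ⟨d, hd, rfl⟩ := hx
    exact hA d hd
  | zero => rw [mul_zero, zero_mul]
  | add x y _ _ hx hy => rw [mul_add, add_mul, hx, hy]
  | smul c x _ hx => rw [Matrix.mul_smul, Matrix.smul_mul, hx]

theorem scalar_of_comm (hW : IrrD f Y M W) {A : Matrix (Fin m) (Fin m) F}
    (hA : ∀ d, DE f Y M d → A * W d = W d * A) : ∃ w : F, A = Matrix.scalar (Fin m) w := by
  have h2 : A ∈ Set.range (Matrix.scalar (Fin m) : F →+* Matrix (Fin m) (Fin m) F) := by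
    rw [Matrix.mem_range_scalar_iff_commute_single']
    intro i j
    exact (comm_all hW hA _).symm
  obtain ⟨w, hw⟩ := h2
  exact ⟨w, hw.symm⟩

theorem W_iter (hW : IrrD f Y M W) (hYM : Y ≤ M) {z : X → F}
    (hz : CE f Y 1 z) (n : ℕ) : DE f Y M ((mulF z)^[n] z) ∧ W ((mulF z)^[n] z) = W z ^ (n + 1) := by
  induction n with
  | zero => exact ⟨CE_DE hYM M.one_mem hz, by simp⟩
  | succ n ih =>
    rw [Function.iterate_succ_apply']
    have h0 := CE_DE hYM M.one_mem hz
    refine ⟨⟨h0.cc.mul ih.1.cc, ?_⟩, ?_⟩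
    · intro h hh
      apply Pool.Agent.PP.J74.mulF_supp (S := (M : Set X)) (T := (M : Set X)) h0.supp ih.1.supp
      rintro s hs t ht rfl
      exact hh (M.mul_mem hs ht)
    · rw [hW.mul _ _ h0 ih.1, ih.2, ← pow_succ']

theorem W_lam (hF : IsAlgClosed F) (hf : SBlk Y f) (hY : Y.Normal) (hYM : Y ≤ M)
    (hW : IrrD f Y M W) {z : X → F} (hz : CE f Y 1 z) :
    W z = Matrix.scalar (Fin m) (lamJ f z) := by
  have h0 := CE_DE hYM M.one_mem hz
  obtain ⟨w, hw⟩ := scalar_of_comm hW (A := W z) (by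
    intro d hd
    rw [← hW.mul _ _ h0 hd, ← hW.mul _ _ hd h0, Pool.Agent.PP.J74.C1_comm hz hd.cc])
  obtain ⟨n, hn⟩ := Pool.Agent.PP.J74.isRes_lam hF hf hz
  have hz' : CE f Y 1 (z - lamJ f z • f) := hz.sub ((Pool.Agent.PP.J74.f_CE hf).smul _)
  have h1 := (W_iter hW hYM hz' n).2
  rw [hn, map_zero, map_sub, map_smul, hW.one, hw] at h1
  have hN : Nonempty (Fin m) := ⟨⟨0, hW.pos⟩⟩
  have h2 : Matrix.scalar (Fin m) w - lamJ f z • (1 : Matrix (Fin m) (Fin m) F) =
      Matrix.scalar (Fin m) (w - lamJ f z) := by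
    rw [map_sub]
    congr 1
    ext i j
    simp [Matrix.scalar_apply, Matrix.one_apply, Matrix.diagonal_apply]
  rw [h2, ← map_pow] at h1
  have h3 : (w - lamJ f z) ^ (n + 1) = 0 := by
    have h4 := congrFun (congrFun h1 ⟨0, hW.pos⟩) ⟨0, hW.pos⟩
    simpa using h4.symm
  rw [pow_eq_zero_iff (Nat.succ_ne_zero n), sub_eq_zero] at h3
  rw [hw, h3]

/-- WJC -/
theorem wjc : WjcStmt := by
  intro ℓ F _ hF X _ _ Y hY f hf M hM hYM m W hW
  refine ⟨?_, fun z hz => W_lam hF.closed hf hY hYM hW hz⟩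
  have h1 : ∀ t ∈ Y, ∀ h, t⁻¹ * h ∈ (M : Set X) ↔ h ∈ (M : Set X) := fun t ht h =>
    M.mul_mem_cancel_left (M.inv_mem (hYM ht))
  have h2 : ∀ n ∈ Y, ∀ h, n * h * n⁻¹ ∈ (M : Set X) ↔ h ∈ (M : Set X) := by
    intro n hn h
    constructor
    · intro hh
      have := hM.conj_mem _ hh n⁻¹
      have e : n⁻¹ * (n * h * n⁻¹) * n⁻¹⁻¹ = h := by group
      rwa [e] at this
    · intro hh
      exact hM.conj_mem _ hh n
  have key : ∀ w ∈ J1C f Y, W (prM F (M : Set X) w) = 0 := by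
    intro w hw
    induction hw using Submodule.span_induction with
    | mem x hx =>
      obtain ⟨z, c, hz, hn, hc, rfl⟩ := hx
      have hd : DE f Y M (prM F (M : Set X) c) := ⟨prM_CC hf h1 h2 hc, fun h hh => prM_not hh⟩
      rw [prM_mul h1 hz.supp1, hW.mul _ _ (CE_DE hYM M.one_mem hz) hd,
        W_lam hF.closed hf hY hYM hW hz]
      have h3 : lamJ f z = 0 := by
        apply Pool.Agent.PP.J74.lam_eq hF.closed hf hz
        unfold IsRes
        rw [zero_smul, sub_zero]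
        exact hn
      rw [h3, map_zero, zero_mul]
    | zero => rw [map_zero, map_zero]
    | add x y _ _ hx hy => rw [map_add, map_add, hx, hy, add_zero]
    | smul c x _ hx => rw [map_smul, map_smul, hx, smul_zero]
  intro w hw hd
  have := key w hw
  rwa [prM_of_supp hd.supp] at this

end wjc

end Pool.Agent.PP.H58
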