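import Pool.Agent.Helper58_PP.Exh

/-!
TFA (AWC_J, J5), part 3: characters, conjugation and the scalars of `ρ * W`.
-/

open scoped BigOperators

set_option linter.unusedSectionVars false

noncomputable section

namespace Pool.Agent.PP.H58

open Pool.Agent.PP Pool.Agent.PP.H20

section chr

variable {F X : Type} [Field F] [Group X] [Finite X] {ℓ : ℕ} {Y R S M : Subgroup X} {f : X → F}
  {n m : ℕ} {ρ : ↥(Y ⊓ S) →* Matrix (Fin n) (Fin n) F}
  {W : (X → F) →ₗ[F] Matrix (Fin m) (Fin m) F}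

open Classical in
/-- the character of an irreducible representation of `D` -/
def omW (f : X → F) (Y M : Subgroup X) (W : (X → F) →ₗ[F] Matrix (Fin m) (Fin m) F) :
    (X → F) → F := fun d => if DE f Y M d then (W d).trace else 0

theorem omW_of {d : X → F} (hd : DE f Y M d) : omW f Y M W d = (W d).trace := by
  classical
  unfold omW
  rw [if_pos hd]

theorem omW_not {d : X → F} (hd : ¬ DE f Y M d) : omW f Y M W d = 0 := by
  classical
  unfold omW
  rw [if_neg hd]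

/-- the character of `ρ * W` -/
def PPc (Y R S M : Subgroup X) (U U' : ↥(M.subgroupOf S) → X → F) (φ : ↥(Y ⊓ S) → F)
    (ω : (X → F) → F) : ↥(M.subgroupOf S) → F :=
  fun g => (∑ᶠ t : ↥(Y ⊓ S), rt (io M S g) (br R (U' g)) t * φ t) * ω (U g)

theorem tr_psi (hYM : Y ≤ M) {U U' : ↥(M.subgroupOf S) → X → F}
    (hU : ∀ g, IsUnitOver f Y (io M S g) (U g) (U' g))
    {ψ : ↥(M.subgroupOf S) →* Matrix (Fin (n * m)) (Fin (n * m)) F}
    (hψ : IsK f Y R S M ρ W ψ) : tr ψ = PPc Y R S M U U' (tr ρ) (omW f Y M W) := by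
  funext g
  have hgM : io M S g ∈ M := Subgroup.mem_subgroupOf.1 g.2
  unfold tr PPc
  rw [hψ g (U g) (U' g) (hU g), H74.kr_trace, omW_of (CE_DE hYM hgM (hU g).left)]
  congr 1
  unfold EM
  rw [H33.trace_ev]
  rfl

/-- the function on `X` which extends a function on `Y ∩ S` by zero -/
def extz (L : Subgroup X) (a : L → F) : X → F :=
  open Classical in fun t => if h : t ∈ L then a ⟨t, h⟩ else 0

theorem extz_not {L : Subgroup X} {a : L → F} : ∀ t, t ∉ L → extz L a t = 0 := by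
  intro t ht
  unfold extz
  rw [dif_neg ht]

theorem extz_coe {L : Subgroup X} {a : L → F} : (fun t : L => extz L a t) = a := by
  funext t
  unfold extz
  rw [dif_pos t.2]

theorem trace_prod (hF : GoodF ℓ F) (hf : SBlk Y f) (hY : Y.Normal) (hL : Loc ℓ Y R S)
    (hρ : IsIrr ρ) (hφ : actF (fun t : ↥(Y ⊓ S) => f t) (tr ρ) = tr ρ) (hYM : Y ≤ M)
    (hMX : M ≤ XF f Y) (hW : IrrD f Y M W)
    {ψ : ↥(M.subgroupOf S) →* Matrix (Fin (n * m)) (Fin (n * m)) F}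
    (hψ : IsK f Y R S M ρ W ψ) (a : ↥(Y ⊓ S) → F) {d : X → F} (hd : DE f Y M d) :
    ∑ᶠ t, mulF (extz (Y ⊓ S) a) (br R d) (io M S t) * tr ψ t = (ev ρ a).trace * (W d).trace := by
  have hs : ∀ t, t ∉ (io M S).range → extz (Y ⊓ S) a t = 0 := by
    intro t ht
    apply extz_not
    intro hc
    exact ht (io_range.2 ⟨hYM hc.1, hc.2⟩)
  rw [← H33.trace_ev ψ (fun t => mulF (extz (Y ⊓ S) a) (br R d) (io M S t)),
    comp_ev_mul (io M S) (io_inj M S) ψ hs,
    psi_evY hF hf hY hL hρ hφ hYM hW hψ extz_not, extz_coe,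
    psi_DE hF hf hY hL hρ hφ hYM hMX hW hψ hd, H74.kr_mul, mul_one, one_mul, H74.kr_trace]

theorem W_tr_ne (hW : IrrD f Y M W) : ∃ d, DE f Y M d ∧ (W d).trace ≠ 0 := by
  by_contra hcon
  push Not at hcon
  have h1 : ∀ Z : Matrix (Fin m) (Fin m) F, Z.trace = 0 := by
    intro Z
    have hZ : Z ∈ Submodule.span F (W '' {d | DE f Y M d}) := by rw [hW.irr]; trivial
    induction hZ using Submodule.span_induction with
    | mem x hx =>
      obtain ⟨d, hd, rfl⟩ := hx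
      exact hcon d hd
    | zero => exact Matrix.trace_zero _ _
    | add x y _ _ hx hy => rw [Matrix.trace_add, hx, hy, add_zero]
    | smul c x _ hx => rw [Matrix.trace_smul, hx, smul_zero]
  have h2 := h1 (Matrix.single (⟨0, hW.pos⟩ : Fin m) ⟨0, hW.pos⟩ (1 : F))
  rw [Matrix.trace_single_eq_same] at h2
  exact one_ne_zero h2

theorem eq_of_smul (hF : GoodF ℓ F) {L : Type} [Group L] [Finite L] {φ φ' : L → F}
    (h : φ ∈ IBr F L) (h' : φ' ∈ IBr F L) {c : F} (hc : φ = c • φ') : φ = φ' := by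
  by_contra hne
  have hli := (ibf ℓ F hF L).2
  have hinj : Function.Injective (![⟨φ, h⟩, ⟨φ', h'⟩] : Fin 2 → IBr F L) := by
    intro i j hij
    fin_cases i <;> fin_cases j
    · rfl
    · exact absurd (congrArg Subtype.val hij) hne
    · exact absurd (congrArg Subtype.val hij).symm hne
    · rfl
  have h2 := hli.comp _ hinj
  have e : (![φ, φ'] : Fin 2 → L → F) = (fun f : IBr F L => (f : L → F)) ∘
      (![⟨φ, h⟩, ⟨φ', h'⟩] : Fin 2 → IBr F L) := by
    funext i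
    fin_cases i <;> rfl
  have h3 : LinearIndependent F ![φ, φ'] := by
    rw [e]
    exact h2
  rw [LinearIndependent.pair_iff] at h3
  have h4 := h3 1 (-c) (by rw [one_smul, hc, neg_smul, add_neg_cancel])
  exact one_ne_zero h4.1

/-- the character of `ρ * W` determines the characters of `ρ` and `W` -/
theorem sep (hF : GoodF ℓ F) (hf : SBlk Y f) (hY : Y.Normal) (hL : Loc ℓ Y R S)
    (hYM : Y ≤ M) (hMX : M ≤ XF f Y) {n' m' : ℕ}
    {ρ' : ↥(Y ⊓ S) →* Matrix (Fin n') (Fin n') F} {W' : (X → F) →ₗ[F] Matrix (Fin m') (Fin m') F}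
    (hρ : IsIrr ρ) (hφ : actF (fun t : ↥(Y ⊓ S) => f t) (tr ρ) = tr ρ) (hW : IrrD f Y M W)
    (hρ' : IsIrr ρ') (hφ' : actF (fun t : ↥(Y ⊓ S) => f t) (tr ρ') = tr ρ') (hW' : IrrD f Y M W')
    {ψ : ↥(M.subgroupOf S) →* Matrix (Fin (n * m)) (Fin (n * m)) F}
    (hψ : IsK f Y R S M ρ W ψ)
    {ψ' : ↥(M.subgroupOf S) →* Matrix (Fin (n' * m')) (Fin (n' * m')) F}
    (hψ' : IsK f Y R S M ρ' W' ψ') (h : tr ψ = tr ψ') :
    tr ρ = tr ρ' ∧ omW f Y M W = omW f Y M W' := by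
  have h1 : ∀ (a : ↥(Y ⊓ S) → F) (d : X → F), DE f Y M d →
      (ev ρ a).trace * (W d).trace = (ev ρ' a).trace * (W' d).trace := by
    intro a d hd
    rw [← trace_prod hF hf hY hL hρ hφ hYM hMX hW hψ a hd,
      ← trace_prod hF hf hY hL hρ' hφ' hYM hMX hW' hψ' a hd, h]
  have h2 : ∀ (t : ↥(Y ⊓ S)) (d : X → F), DE f Y M d →
      tr ρ t * (W d).trace = tr ρ' t * (W' d).trace := by
    intro t d hd
    have := h1 (dl F t) d hd
    rwa [ev_dl, ev_dl] at this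
  obtain ⟨d0, hd0, hne⟩ := W_tr_ne hW
  have h3 : tr ρ = ((W' d0).trace / (W d0).trace) • tr ρ' := by
    funext t
    rw [Pi.smul_apply, smul_eq_mul, div_mul_eq_mul_div, eq_div_iff hne, h2 t d0 hd0, mul_comm]
  have h4 : tr ρ = tr ρ' := eq_of_smul hF ⟨n, ρ, hρ, rfl⟩ ⟨n', ρ', hρ', rfl⟩ h3
  refine ⟨h4, ?_⟩
  obtain ⟨t0, ht0⟩ := H33.tr_ne_zero hρ
  funext d
  by_cases hd : DE f Y M d
  · rw [omW_of hd, omW_of hd]
    have h5 := h2 t0 d hd
    rw [← h4] at h5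
    exact mul_left_cancel₀ ht0 h5
  · rw [omW_not hd, omW_not hd]

/-! ### conjugation -/

/-- conjugation by `x` on `Y ∩ S` -/
def cjH (hY : Y.Normal) {x : X} (hx : x ∈ S) : ↥(Y ⊓ S) →* ↥(Y ⊓ S) where
  toFun t := ⟨x * t * x⁻¹, loc_norm hY hx t t.2⟩
  map_one' := Subtype.ext (by simp)
  map_mul' a b := Subtype.ext (by
    show x * ((a : X) * b) * x⁻¹ = x * a * x⁻¹ * (x * b * x⁻¹)
    group)

theorem cjH_bij (hY : Y.Normal) {x : X} (hx : x ∈ S) :
    Function.Bijective (cjH (S := S) hY hx) := by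
  apply Finite.injective_iff_bijective.1
  intro g g' h
  have h1 : x * (g : X) * x⁻¹ = x * (g' : X) * x⁻¹ := congrArg Subtype.val h
  exact Subtype.ext (mul_left_cancel (mul_right_cancel h1))

theorem ev_cjH (hY : Y.Normal) {x : X} (hx : x ∈ S) (a : X → F) :
    ev (ρ.comp (cjH hY hx)) (fun t : ↥(Y ⊓ S) => a t) = ev ρ (fun t : ↥(Y ⊓ S) => cjF x a t) := by
  have hfinL := Fintype.ofFinite ↥(Y ⊓ S)
  rw [ev, ev, finsum_eq_sum_of_fintype, finsum_eq_sum_of_fintype]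
  apply Fintype.sum_bijective _ (cjH_bij (S := S) hY hx)
  intro g
  show a g • ρ (cjH hY hx g) = cjF x a (x * g * x⁻¹) • ρ (cjH hY hx g)
  congr 1
  show a g = a (x⁻¹ * (x * g * x⁻¹) * x)
  congr 1
  group

theorem irr_cjH (hY : Y.Normal) {x : X} (hx : x ∈ S) (hρ : IsIrr ρ) :
    IsIrr (ρ.comp (cjH hY hx)) := by
  refine ⟨hρ.1, ?_⟩
  rw [← hρ.2]
  congr 1
  ext Z
  constructor
  · rintro ⟨t, rfl⟩
    exact ⟨_, rfl⟩
  · rintro ⟨t, rfl⟩
    obtain ⟨s, rfl⟩ := (cjH_bij hY hx).2 t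
    exact ⟨s, rfl⟩

theorem act_of_ev {L : Type} [Group L] [Finite L] {ρ : L →* Matrix (Fin n) (Fin n) F} {a : L → F}
    (h : ev ρ a = 1) : actF a (tr ρ) = tr ρ := by
  funext x
  rw [Pool.Agent.PP.actF_tr, h, one_mul]
  rfl

theorem act_cjH (hf : SBlk Y f) (hY : Y.Normal) {x : X} (hx : x ∈ S) (hρ : IsIrr ρ)
    (hφ : actF (fun t : ↥(Y ⊓ S) => f t) (tr ρ) = tr ρ) :
    actF (fun t : ↥(Y ⊓ S) => f t) (tr (ρ.comp (cjH hY hx))) = tr (ρ.comp (cjH hY hx)) := by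
  apply act_of_ev
  rw [ev_cjH, cjF_of_cl hf.cl]
  exact Pool.Agent.PP.J74.ev_f hf ρ hρ hφ

theorem DE_cj (hf : SBlk Y f) (hY : Y.Normal) (hM : M.Normal) {d : X → F} (hd : DE f Y M d)
    (x : X) : DE f Y M (cjF x d) := by
  refine ⟨⟨?_, ?_⟩, ?_⟩
  · intro n hn h
    show d (x⁻¹ * (n * h * n⁻¹) * x) = d (x⁻¹ * h * x)
    have h1 : x⁻¹ * n * x ∈ Y := by
      have := hY.conj_mem n hn x⁻¹
      rwa [inv_inv] at this
    rw [← hd.cc.inv _ h1 (x⁻¹ * h * x)]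
    congr 1
    group
  · have h1 : mulF f (cjF x d) = mulF (cjF x f) (cjF x d) := by rw [cjF_of_cl hf.cl]
    rw [h1, ← cjF_mulF, hd.cc.abs]
  · intro h hh
    apply hd.supp
    intro hc
    apply hh
    have := hM.conj_mem _ hc x
    have e : x * (x⁻¹ * h * x) * x⁻¹ = h := by group
    rwa [e] at this

/-- conjugation by `x` on functions, as a linear map -/
def cjL (F : Type) [Field F] {X : Type} [Group X] (x : X) : (X → F) →ₗ[F] (X → F) where
  toFun u := cjF x u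
  map_add' _ _ := rfl
  map_smul' _ _ := rfl

theorem IrrD_cj (hf : SBlk Y f) (hY : Y.Normal) (hM : M.Normal) (hW : IrrD f Y M W) (x : X) :
    IrrD f Y M (W ∘ₗ cjL F x) := by
  refine ⟨hW.pos, ?_, ?_, ?_⟩
  · show W (cjF x f) = 1
    rw [cjF_of_cl hf.cl, hW.one]
  · intro a b ha hb
    show W (cjF x (mulF a b)) = W (cjF x a) * W (cjF x b)
    rw [cjF_mulF, hW.mul _ _ (DE_cj hf hY hM ha x) (DE_cj hf hY hM hb x)]
  · rw [← hW.irr]
    congr 1
    ext Z
    constructor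
    · rintro ⟨d, hd, rfl⟩
      exact ⟨cjF x d, DE_cj hf hY hM hd x, rfl⟩
    · rintro ⟨d, hd, rfl⟩
      refine ⟨cjF x⁻¹ d, DE_cj hf hY hM hd x⁻¹, ?_⟩
      show W (cjF x (cjF x⁻¹ d)) = W d
      rw [cjF_cjF, mul_inv_cancel, cjF_one]

theorem io_conj [(M.subgroupOf S).Normal] (x : S) (g : ↥(M.subgroupOf S)) :
    io M S (MulAut.conjNormal x g) = (x : X) * io M S g * (x : X)⁻¹ := by
  show (((MulAut.conjNormal x g : ↥(M.subgroupOf S)) : S) : X) = _
  rw [MulAut.conjNormal_apply]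
  rfl

theorem IsK_cj (hf : SBlk Y f) (hY : Y.Normal) (hL : Loc ℓ Y R S) [(M.subgroupOf S).Normal]
    {ψ : ↥(M.subgroupOf S) →* Matrix (Fin (n * m)) (Fin (n * m)) F}
    (hψ : IsK f Y R S M ρ W ψ) (x : S) :
    IsK f Y R S M (ρ.comp (cjH hY x.2)) (W ∘ₗ cjL F (x : X))
      (ψ.comp (MulAut.conjNormal x : MulAut ↥(M.subgroupOf S)).toMonoidHom) := by
  intro g u u' hu
  have h1 := unit_conj hf hY hu (x : X)
  have h2 := hψ (MulAut.conjNormal x g) (cjF x u) (cjF x u') (by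
    have := io_conj (M := M) x g
    show IsUnitOver f Y (io M S (MulAut.conjNormal x g)) _ _
    rw [this]
    exact h1)
  show ψ (MulAut.conjNormal x g) = _
  rw [h2]
  show kr (EM Y S R ρ (io M S (MulAut.conjNormal x g)) (cjF x u')) (W (cjF x u)) =
    kr (EM Y S R (ρ.comp (cjH hY x.2)) (io M S g) u') (W (cjF x u))
  congr 1
  unfold EM
  rw [ev_cjH, io_conj, br_cj (hL.norm x.2)]
  congr 1
  funext t
  show br R u' ((x : X)⁻¹ * (t * ((x : X) * io M S g * (x : X)⁻¹)⁻¹) * x) =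
    br R u' ((x : X)⁻¹ * t * x * (io M S g)⁻¹)
  congr 1
  group

end chr

end Pool.Agent.PP.H58
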