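import Pool.Agent.Helper58_PP.Kap

/-!
TFA (AWC_J, J5), part 2: `ρ * W` is irreducible, and every irreducible representation of `M ∩ S`
over `f` is of this form.
-/

open scoped BigOperators

set_option linter.unusedSectionVars false

noncomputable section

namespace Pool.Agent.PP.H58

open Pool.Agent.PP Pool.Agent.PP.H20

section exh

variable {F X : Type} [Field F] [Group X] [Finite X] {ℓ : ℕ} {Y R S M : Subgroup X} {f : X → F}
  {n m : ℕ} {ρ : ↥(Y ⊓ S) →* Matrix (Fin n) (Fin n) F}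
  {W : (X → F) →ₗ[F] Matrix (Fin m) (Fin m) F}

theorem psi_irr (hF : GoodF ℓ F) (hf : SBlk Y f) (hY : Y.Normal) (hL : Loc ℓ Y R S)
    (hρ : IsIrr ρ) (hφ : actF (fun t : ↥(Y ⊓ S) => f t) (tr ρ) = tr ρ) (hYM : Y ≤ M)
    (hMX : M ≤ XF f Y) (hW : IrrD f Y M W)
    {ψ : ↥(M.subgroupOf S) →* Matrix (Fin (n * m)) (Fin (n * m)) F}
    (hψ : IsK f Y R S M ρ W ψ) : IsIrr ψ := by
  refine ⟨Nat.mul_pos hρ.1 hW.pos, ?_⟩
  apply H33.top_of_kr
  intro A B
  have hB : B ∈ Submodule.span F (W '' {d | DE f Y M d}) := by rw [hW.irr]; trivial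
  have hA : A ∈ Submodule.span F (Set.range ρ) := by rw [hρ.2]; trivial
  induction hB using Submodule.span_induction with
  | mem x hx =>
    obtain ⟨d, hd, rfl⟩ := hx
    induction hA using Submodule.span_induction with
    | mem y hy =>
      obtain ⟨t, rfl⟩ := hy
      have h1 : kr (ρ t) (W d) = ψ (jj hYM t) * ev ψ (fun t => br R d (io M S t)) := by
        rw [psi_Y hF hf hY hL hρ hφ hYM hW hψ, psi_DE hF hf hY hL hρ hφ hYM hMX hW hψ hd,
          H74.kr_mul, mul_one, one_mul]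
      rw [h1, ← ev_dl ψ (jj hYM t), ← Pool.Agent.PP.ev_mulF]
      exact H33.ev_mem_span ψ _
    | zero =>
      rw [H33.kr_zero_left]
      exact Submodule.zero_mem _
    | add x y _ _ hx hy => rw [H74.kr_add_left]; exact Submodule.add_mem _ hx hy
    | smul c x _ hx => rw [H74.kr_smul_left]; exact Submodule.smul_mem _ _ hx
  | zero =>
    rw [H33.kr_zero_right]
    exact Submodule.zero_mem _
  | add x y _ _ hx hy => rw [H74.kr_add_right]; exact Submodule.add_mem _ hx hy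
  | smul c x _ hx => rw [H74.kr_smul_right]; exact Submodule.smul_mem _ _ hx

/-- the value of a representation over `f` at a group element, by the units -/
theorem psi_formula (hF : GoodF ℓ F) (hf : SBlk Y f) (hY : Y.Normal) (hL : Loc ℓ Y R S)
    (hYM : Y ≤ M) {N : ℕ} {ψ : ↥(M.subgroupOf S) →* Matrix (Fin N) (Fin N) F}
    (h1 : ev ψ (fun t => br R f (io M S t)) = 1) {g : ↥(M.subgroupOf S)} {u u' : X → F}
    (hu : IsUnitOver f Y (io M S g) u u') :
    ψ g = EM Y S R (ψ.comp (jj hYM)) (io M S g) u' * ev ψ (fun t => br R u (io M S t)) := by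
  have hgS : io M S g ∈ S := (g : S).2
  have hgM : io M S g ∈ M := Subgroup.mem_subgroupOf.1 g.2
  have h2 : ψ g * ev ψ (fun t => br R u' (io M S t)) = EM Y S R (ψ.comp (jj hYM)) (io M S g) u' := by
    rw [← ev_lt (io M S) ψ (br R u') g, lt_eq_rt (br_cj_unit hf hY hL hgS hu).2]
    exact ev_jj hYM ψ (rt_supp hY hL hgS hu.right)
  rw [← h2, mul_assoc]
  have h3 := comp_ev_mul (io M S) (io_inj M S) ψ (a := br R u')
    (br_supp hL (CE_DE hYM (M.inv_mem hgM) hu.right).supp) (br R u)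
  rw [← br_mulF_Y hF hL hu.right.inv hu.left.inv, unit_symm hf hY hu, h1] at h3
  rw [← h3, mul_one]

/-- exhaustion -/
theorem exhaust (hF : GoodF ℓ F) (hf : SBlk Y f) (hY : Y.Normal) (hL : Loc ℓ Y R S)
    (hYM : Y ≤ M) (hMX : M ≤ XF f Y) {N : ℕ}
    {ψ : ↥(M.subgroupOf S) →* Matrix (Fin N) (Fin N) F} (hψ : IsIrr ψ)
    (h0 : ev ψ (fun t => f (io M S t)) = 1) :
    ∃ (n m : ℕ) (ρ : ↥(Y ⊓ S) →* Matrix (Fin n) (Fin n) F)
      (W : (X → F) →ₗ[F] Matrix (Fin m) (Fin m) F) (T : Matrix (Fin N) (Fin (n * m)) F)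
      (T' : Matrix (Fin (n * m)) (Fin N) F), IsIrr ρ ∧
      actF (fun t : ↥(Y ⊓ S) => f t) (tr ρ) = tr ρ ∧ IrrD f Y M W ∧ T * T' = 1 ∧ T' * T = 1 ∧
      (∀ (g : ↥(M.subgroupOf S)) (u u' : X → F), IsUnitOver f Y (io M S g) u u' →
        ψ g = T * kr (EM Y S R ρ (io M S g) u') (W u) * T') ∧
      ∀ d, DE f Y M d →
        ev ψ (fun t => br R d (io M S t)) = T * kr (1 : Matrix (Fin n) (Fin n) F) (W d) * T' := by
  have hcl := hF.closed
  have hRr : R ≤ (io M S).range := fun r hr => io_range.2 ⟨hYM (hL.le hr), hL.leS hr⟩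
  have hNr : ∀ t, io M S t ∈ Subgroup.normalizer (R : Set X) := fun t => hL.norm (t : S).2
  have h1 : ev ψ (fun t => br R f (io M S t)) = 1 := by
    rw [← comp_br (io M S) hF (io_inj M S) hL.pgrp hRr hNr hψ (fun s t => hf.cl _ _), h0]
  obtain ⟨S₁, hS₁⟩ : ∃ S₁, S₁ = Set.range (fun t : ↥(Y ⊓ S) => ψ (jj hYM t)) := ⟨_, rfl⟩
  obtain ⟨S₂, hS₂⟩ : ∃ S₂, S₂ = {z | ∃ d, DE f Y M d ∧ z = ev ψ (fun t => br R d (io M S t))} :=
    ⟨_, rfl⟩
  obtain ⟨n, m, T, T', A, B, hn, hm, hNm, hTT, hTT', hA, hB, hAs, hBs⟩ := H74.tens hψ.1 S₁ S₂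
    (by rw [hS₁]; exact ⟨1, by simp only [map_one]⟩)
    (by
      rw [hS₁]
      rintro _ ⟨a, rfl⟩ _ ⟨b, rfl⟩
      exact ⟨a * b, by simp only [map_mul]⟩)
    (by
      rw [hS₁, hS₂]
      rintro _ ⟨t, rfl⟩ _ ⟨d, hd, rfl⟩
      show ψ (jj hYM t) * _ = _ * ψ (jj hYM t)
      rw [← ev_lt, ← ev_rt, lt_eq_rt]
      have h2 := br_inv hL hd.cc.inv
      exact cjF_of_inv h2 t.2)
    (by
      intro Z
      have hZ : Z ∈ Submodule.span F (Set.range ψ) := by rw [hψ.2]; trivial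
      induction hZ using Submodule.span_induction with
      | mem x hx =>
        obtain ⟨g, rfl⟩ := hx
        obtain ⟨u, u', hu⟩ := (mem_XF hf hY).1 (hMX (Subgroup.mem_subgroupOf.1 g.2))
        have hgM : io M S g ∈ M := Subgroup.mem_subgroupOf.1 g.2
        rw [psi_formula hF hf hY hL hYM h1 hu]
        have h2 : EM Y S R (ψ.comp (jj hYM)) (io M S g) u' ∈ Submodule.span F S₁ := by
          rw [hS₁]
          exact H33.ev_mem_span (ψ.comp (jj hYM)) _
        have h3 : ev ψ (fun t => br R u (io M S t)) ∈ S₂ := by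
          rw [hS₂]
          exact ⟨u, CE_DE hYM hgM hu.left, rfl⟩
        obtain ⟨E, hE⟩ : ∃ E, E = EM Y S R (ψ.comp (jj hYM)) (io M S g) u' := ⟨_, rfl⟩
        rw [← hE] at h2 ⊢
        clear hE
        induction h2 using Submodule.span_induction with
        | mem y hy => exact Submodule.subset_span ⟨y, hy, _, h3, rfl⟩
        | zero => rw [zero_mul]; exact Submodule.zero_mem _
        | add y z _ _ hy hz => rw [add_mul]; exact Submodule.add_mem _ hy hz
        | smul c y _ hy => rw [Matrix.smul_mul]; exact Submodule.smul_mem _ _ hy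
      | zero => exact Submodule.zero_mem _
      | add x y _ _ hx hy => exact Submodule.add_mem _ hx hy
      | smul c x _ hx => exact Submodule.smul_mem _ _ hx)
  -- conjugation by `T`
  have hcan : ∀ Z : Matrix (Fin (n * m)) (Fin (n * m)) F, T' * (T * Z * T') * T = Z := by
    intro Z
    calc T' * (T * Z * T') * T = (T' * T) * Z * (T' * T) := by simp only [Matrix.mul_assoc]
      _ = Z := by rw [hTT', Matrix.one_mul, Matrix.mul_one]
  have hcan1 : T' * (1 : Matrix (Fin N) (Fin N) F) * T = 1 := by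
    rw [Matrix.mul_one, hTT']
  have hmulT : ∀ Z Z' : Matrix (Fin (n * m)) (Fin (n * m)) F,
      (T * Z * T') * (T * Z' * T') = T * (Z * Z') * T' := by
    intro Z Z'
    calc (T * Z * T') * (T * Z' * T') = T * Z * (T' * T) * Z' * T' := by
          simp only [Matrix.mul_assoc]
      _ = _ := by rw [hTT', Matrix.mul_one]; simp only [Matrix.mul_assoc]
  have hinjT : ∀ Z Z' : Matrix (Fin (n * m)) (Fin (n * m)) F, T * Z * T' = T * Z' * T' → Z = Z' := by
    intro Z Z' h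
    rw [← hcan Z, h, hcan]
  have hmS₁ : ∀ t, ψ (jj hYM t) ∈ S₁ := fun t => by rw [hS₁]; exact ⟨t, rfl⟩
  have hAt : ∀ t, ψ (jj hYM t) =
      T * kr (A (ψ (jj hYM t))) (1 : Matrix (Fin m) (Fin m) F) * T' := fun t => hA _ (hmS₁ t)
  -- the representation `ρ`
  obtain ⟨ρ, hρA⟩ : ∃ ρ : ↥(Y ⊓ S) →* Matrix (Fin n) (Fin n) F, ∀ t, ρ t = A (ψ (jj hYM t)) := by
    refine ⟨{ toFun := fun t => A (ψ (jj hYM t))
              map_one' := ?_
              map_mul' := ?_ }, fun t => rfl⟩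
    · apply H74.kr_one_inj_left hm
      rw [H74.kr_one]
      have h2 := hAt 1
      rw [map_one, map_one] at h2
      rw [map_one, map_one]
      have h3 := hcan (kr (A 1) (1 : Matrix (Fin m) (Fin m) F))
      rw [← h2, hcan1] at h3
      exact h3.symm
    · intro a b
      apply H74.kr_one_inj_left hm
      apply hinjT
      rw [← hAt (a * b), ← mul_one (1 : Matrix (Fin m) (Fin m) F), ← H74.kr_mul, ← hmulT,
        ← hAt a, ← hAt b, map_mul, map_mul]
  have hρT : ∀ t, (ψ.comp (jj hYM)) t = T * kr (ρ t) (1 : Matrix (Fin m) (Fin m) F) * T' := by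
    intro t
    rw [hρA]
    exact hAt t
  have hρev := fun a => ev_kr ρ (ψ.comp (jj hYM)) T T' hρT a
  have hρirr : IsIrr ρ := by
    refine ⟨hn, ?_⟩
    rw [← hAs]
    congr 1
    rw [hS₁]
    ext Z
    constructor
    · rintro ⟨t, rfl⟩
      exact ⟨_, ⟨t, rfl⟩, (hρA t).symm⟩
    · rintro ⟨_, ⟨t, rfl⟩, rfl⟩
      exact ⟨t, hρA t⟩
  have hbs : ∀ t, t ∉ Y ⊓ S → br R f t = 0 := by
    intro t ht
    classical
    by_cases h1 : t ∈ Subgroup.centralizer (R : Set X)
    · simp only [br, if_pos h1]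
      exact hf.supp t fun hc => ht ⟨hc, hL.cent h1⟩
    · simp only [br, if_neg h1]
  have hone : ∀ Z : Matrix (Fin (n * m)) (Fin (n * m)) F, T * Z * T' = 1 → Z = 1 := by
    intro Z h
    rw [← hcan Z, h, hcan1]
  have hφ1 : ev ρ (fun t : ↥(Y ⊓ S) => f t) = 1 := by
    rw [← Pool.Agent.PP.J74.act_f hF hf hL ρ hρirr]
    apply H74.kr_one_inj_left hm
    rw [H74.kr_one]
    apply hone
    rw [← hρev, ← ev_jj hYM ψ hbs, h1]
  have hφ : actF (fun t : ↥(Y ⊓ S) => f t) (tr ρ) = tr ρ := by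
    funext x
    rw [Pool.Agent.PP.actF_tr, hφ1, one_mul]
    rfl
  -- the linear map `W`
  obtain ⟨E, hE⟩ := ev_br_lin ψ R
  let sl : Matrix (Fin (n * m)) (Fin (n * m)) F →ₗ[F] Matrix (Fin m) (Fin m) F :=
    { toFun := fun Z => Matrix.of fun k l =>
        Z (finProdFinEquiv ((⟨0, hn⟩ : Fin n), k)) (finProdFinEquiv ((⟨0, hn⟩ : Fin n), l))
      map_add' := fun Z Z' => by ext k l; rfl
      map_smul' := fun c Z => by ext k l; rfl }
  have hsl : ∀ Z : Matrix (Fin m) (Fin m) F, sl (kr (1 : Matrix (Fin n) (Fin n) F) Z) = Z := by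
    intro Z
    ext k l
    show kr (1 : Matrix (Fin n) (Fin n) F) Z (finProdFinEquiv ((⟨0, hn⟩ : Fin n), k))
      (finProdFinEquiv ((⟨0, hn⟩ : Fin n), l)) = _
    rw [H74.kr_apply, Matrix.one_apply_eq, one_mul]
  let W : (X → F) →ₗ[F] Matrix (Fin m) (Fin m) F :=
    { toFun := fun d => sl (T' * E d * T)
      map_add' := fun a b => by rw [map_add, Matrix.mul_add, Matrix.add_mul, map_add]
      map_smul' := fun c a => by
        rw [map_smul, Matrix.mul_smul, Matrix.smul_mul, map_smul]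
        rfl }
  have hWd : ∀ d, W d = sl (T' * E d * T) := fun d => rfl
  have hE2 : ∀ d, DE f Y M d → E d ∈ S₂ := fun d hd => by rw [hS₂, hE]; exact ⟨d, hd, rfl⟩
  have hWB : ∀ d, DE f Y M d → W d = B (E d) := by
    intro d hd
    rw [hWd]
    conv_lhs => rw [hB _ (hE2 d hd), hcan, hsl]
  have hWE : ∀ d, DE f Y M d → E d = T * kr (1 : Matrix (Fin n) (Fin n) F) (W d) * T' := by
    intro d hd
    rw [hWB d hd]
    exact hB _ (hE2 d hd)
  have hfD : DE f Y M f := CE_DE hYM M.one_mem (Pool.Agent.PP.J74.f_CE hf)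
  have hW : IrrD f Y M W := by
    refine ⟨hm, ?_, ?_, ?_⟩
    · apply H74.kr_one_inj_right hn
      rw [H74.kr_one]
      apply hone
      rw [← hWE f hfD, hE, h1]
    · intro a b ha hb
      have hab : DE f Y M (mulF a b) := by
        refine ⟨ha.cc.mul hb.cc, ?_⟩
        intro h hh
        apply Pool.Agent.PP.J74.mulF_supp (S := (M : Set X)) (T := (M : Set X)) ha.supp hb.supp
        rintro s hs t ht rfl
        exact hh (M.mul_mem hs ht)
      apply H74.kr_one_inj_right hn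
      apply hinjT
      rw [← hWE _ hab, ← mul_one (1 : Matrix (Fin n) (Fin n) F), ← H74.kr_mul, ← hmulT,
        ← hWE a ha, ← hWE b hb, hE, hE, hE, br_mulF_Y hF hL ha.cc.inv hb.cc.inv]
      exact comp_ev_mul (io M S) (io_inj M S) ψ (br_supp hL ha.supp) (br R b)
    · rw [← hBs]
      congr 1
      ext Z
      constructor
      · rintro ⟨d, hd, rfl⟩
        exact ⟨E d, hE2 d hd, (hWB d hd).symm⟩
      · rintro ⟨b, hb, rfl⟩
        rw [hS₂] at hb
        obtain ⟨d, hd, rfl⟩ := hb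
        refine ⟨d, hd, ?_⟩
        rw [hWB d hd, hE]
  refine ⟨n, m, ρ, W, T, T', hρirr, hφ, hW, hTT, hTT', ?_, ?_⟩
  · intro g u u' hu
    have hgM : io M S g ∈ M := Subgroup.mem_subgroupOf.1 g.2
    have h2 : EM Y S R (ψ.comp (jj hYM)) (io M S g) u' =
        T * kr (EM Y S R ρ (io M S g) u') (1 : Matrix (Fin m) (Fin m) F) * T' := hρev _
    rw [psi_formula hF hf hY hL hYM h1 hu, h2, ← hE, hWE u (CE_DE hYM hgM hu.left), hmulT,
      H74.kr_mul, mul_one, one_mul]
  · intro d hd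
    rw [← hE]
    exact hWE d hd

end exh

end Pool.Agent.PP.H58
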