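import Pool.Agent.Helper58_PP.Wjc
import Pool.Agent.Helper74_PP.Tens
import Pool.Agent.Helper33_PP.Gal

/-!
TFA (AWC_J, J5), part 1: the irreducible representations `ρ * W` of `M ∩ S`.
-/

open scoped BigOperators

set_option linter.unusedSectionVars false

noncomputable section

namespace Pool.Agent.PP.H58

open Pool.Agent.PP Pool.Agent.PP.H20

/-! ### restriction along an injective homomorphism -/

section comp

variable {F X L : Type} [Field F] [Group X] [Finite X] [Group L] [Finite L] (ι : L →* X)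

theorem comp_mul (hι : Function.Injective ι) {a : X → F} (ha : ∀ t, t ∉ ι.range → a t = 0)
    (b : X → F) :
    (fun t => mulF a b (ι t)) = mulF (fun t => a (ι t)) (fun t => b (ι t)) := by
  have hfin := Fintype.ofFinite X
  have hfinL := Fintype.ofFinite L
  funext x
  unfold mulF
  rw [finsum_eq_sum_of_fintype, finsum_eq_sum_of_fintype]
  symm
  apply Fintype.sum_of_injective (fun t : L => ι t) hι
  · intro t ht
    have h3 : t ∉ ι.range := fun ⟨s, hs⟩ => ht ⟨s, hs⟩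
    rw [ha t h3, zero_mul]
  · intro t
    show a (ι t) * b (ι (t⁻¹ * x)) = a (ι t) * b ((ι t)⁻¹ * ι x)
    rw [map_mul, map_inv]

theorem comp_ev_mul (hι : Function.Injective ι) {n : ℕ} (ψ : L →* Matrix (Fin n) (Fin n) F)
    {a : X → F} (ha : ∀ t, t ∉ ι.range → a t = 0) (b : X → F) :
    ev ψ (fun t => mulF a b (ι t)) = ev ψ (fun t => a (ι t)) * ev ψ (fun t => b (ι t)) := by
  rw [comp_mul ι hι ha, Pool.Agent.PP.ev_mulF]

/-- class functions act like their restrictions to the centraliser -/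
theorem comp_br {ℓ : ℕ} (hF : GoodF ℓ F) (hι : Function.Injective ι) {R : Subgroup X}
    (hp : IsPGroup ℓ R) (hR : R ≤ ι.range) (hN : ∀ t, ι t ∈ Subgroup.normalizer (R : Set X)) {n : ℕ}
    {ψ : L →* Matrix (Fin n) (Fin n) F} (hψ : IsIrr ψ) {a : X → F}
    (ha : ∀ s t : L, a (ι s * ι t * (ι s)⁻¹) = a (ι t)) :
    ev ψ (fun t => a (ι t)) = ev ψ (fun t => br R a (ι t)) := by
  classical
  have hnorm : (R.comap ι).Normal := by
    refine ⟨fun r hr g => ?_⟩
    rw [Subgroup.mem_comap] at hr ⊢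
    rw [map_mul, map_mul, map_inv]
    exact (Subgroup.mem_normalizer_iff.1 (hN g) _).1 hr
  have hcl : IsCl (fun t => a (ι t)) := by
    intro s t
    show a (ι (t * s * t⁻¹)) = a (ι s)
    rw [map_mul, map_mul, map_inv, ha]
  have h2 := ((nls ℓ F hF L (R.comap ι) hnorm (hp.comap_of_injective ι hι) n ψ hψ).2 _ hcl).1
  rw [h2]
  congr 1
  funext t
  have hiff : t ∈ Subgroup.centralizer ((R.comap ι : Subgroup L) : Set L) ↔
      ι t ∈ Subgroup.centralizer (R : Set X) := by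
    rw [Subgroup.mem_centralizer_iff, Subgroup.mem_centralizer_iff]
    constructor
    · intro h r hr
      obtain ⟨s, rfl⟩ := hR hr
      rw [← map_mul, ← map_mul, h s hr]
    · intro h r hr
      apply hι
      rw [map_mul, map_mul]
      exact h _ hr
  by_cases ht : ι t ∈ Subgroup.centralizer (R : Set X)
  · simp only [br, if_pos ht, if_pos (hiff.2 ht)]
  · simp only [br, if_neg ht, if_neg (fun hc => ht (hiff.1 hc))]

theorem ev_lt {n : ℕ} (ψ : L →* Matrix (Fin n) (Fin n) F) (a : X → F) (g : L) :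
    ev ψ (fun t => lt (ι g) a (ι t)) = ψ g * ev ψ (fun t => a (ι t)) := by
  have hfinL := Fintype.ofFinite L
  rw [ev, ev, finsum_eq_sum_of_fintype, finsum_eq_sum_of_fintype, Finset.mul_sum]
  symm
  apply Fintype.sum_equiv (Equiv.mulLeft g)
  intro t
  show ψ g * (a (ι t) • ψ t) = a ((ι g)⁻¹ * ι (g * t)) • ψ (g * t)
  rw [map_mul, map_mul, inv_mul_cancel_left, Matrix.mul_smul]

theorem ev_rt {n : ℕ} (ψ : L →* Matrix (Fin n) (Fin n) F) (a : X → F) (g : L) :
    ev ψ (fun t => rt (ι g) a (ι t)) = ev ψ (fun t => a (ι t)) * ψ g := by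
  have hfinL := Fintype.ofFinite L
  rw [ev, ev, finsum_eq_sum_of_fintype, finsum_eq_sum_of_fintype, Finset.sum_mul]
  symm
  apply Fintype.sum_equiv (Equiv.mulRight g)
  intro t
  show (a (ι t) • ψ t) * ψ g = a (ι (t * g) * (ι g)⁻¹) • ψ (t * g)
  rw [map_mul, map_mul, mul_inv_cancel_right, Matrix.smul_mul]

end comp

/-! ### the units and the group elements -/

section unit

variable {F X : Type} [Field F] [Group X] [Finite X] {ℓ : ℕ} {Y R S : Subgroup X} {f : X → F}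

theorem sg_inv_mul (g : X) : (sg g⁻¹ * sg g : MonoidAlgebra F X) = 1 := by
  rw [sg_mul, inv_mul_cancel, sg_one]

theorem sg_mul_inv (g : X) : (sg g * sg g⁻¹ : MonoidAlgebra F X) = 1 := by
  rw [sg_mul, mul_inv_cancel, sg_one]

theorem rt_supp (hY : Y.Normal) (hL : Loc ℓ Y R S) {g : X} (hg : g ∈ S) {u' : X → F}
    (hu : CE f Y g⁻¹ u') : ∀ t, t ∉ Y ⊓ S → rt g (br R u') t = 0 := by
  intro t ht
  classical
  show br R u' (t * g⁻¹) = 0
  by_cases h1 : t * g⁻¹ ∈ Subgroup.centralizer (R : Set X)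
  · have h2 : t ∈ S := by
      have := S.mul_mem (hL.cent h1) hg
      rwa [inv_mul_cancel_right] at this
    have h3 : t ∉ Y := fun hc => ht ⟨hc, h2⟩
    simp only [br, if_pos h1]
    apply hu.supp
    intro hc
    apply h3
    have := hY.conj_mem _ hc g⁻¹
    have e : g⁻¹ * (g⁻¹⁻¹ * (t * g⁻¹)) * g⁻¹⁻¹ = t := by group
    rwa [e] at this
  · simp only [br, if_neg h1]

/-- `g u' = u' g` -/
theorem lt_eq_rt {g : X} {a : X → F} (h : cjF g a = a) : lt g a = rt g a := by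
  funext t
  show a (g⁻¹ * t) = a (t * g⁻¹)
  have h1 := congrFun h (t * g⁻¹)
  have h2 : a (g⁻¹ * (t * g⁻¹) * g) = a (t * g⁻¹) := h1
  rw [← h2]
  congr 1
  group

theorem br_cj_unit (hf : SBlk Y f) (hY : Y.Normal) (hL : Loc ℓ Y R S) {g : X} (hg : g ∈ S)
    {u u' : X → F} (hu : IsUnitOver f Y g u u') : cjF g (br R u) = br R u ∧
      cjF g (br R u') = br R u' := by
  have h1 := unit_cj hf hY hu
  constructor
  · rw [← br_cj (hL.norm hg), h1.1]
  · rw [← br_cj (hL.norm hg), h1.2]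

theorem rt_mul (hF : GoodF ℓ F) (hY : Y.Normal) (hL : Loc ℓ Y R S)
    {g h : X} (hg : g ∈ S) {u u' v v' : X → F} (hu : IsUnitOver f Y g u u')
    (hv : IsUnitOver f Y h v v') :
    rt (g * h) (br R (mulF v' u')) = mulF (rt g (br R u')) (rt h (br R v')) := by
  have hc : mulF (rt g (br R u')) (br R v') = mulF (br R v') (rt g (br R u')) :=
    comm_of_inv (Y ⊓ S) (rt_supp hY hL hg hu.right) (br_inv hL hv.right.inv)
  have hc' := congrArg toMA hc
  rw [toMA_mulF, toMA_mulF, toMA_rt] at hc'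
  rw [br_mulF_Y hF hL hv.right.inv hu.right.inv]
  apply toMA_injective
  rw [toMA_rt, toMA_mulF, toMA_mulF, toMA_rt, toMA_rt, ← sg_mul]
  calc toMA (br R v') * toMA (br R u') * (sg g * sg h) =
      toMA (br R v') * (toMA (br R u') * sg g) * sg h := by simp only [mul_assoc]
    _ = _ := by rw [← hc']; simp only [mul_assoc]

/-- conjugation by `g` on `C` is conjugation by the unit over `g` -/
theorem cj_unit (hf : SBlk Y f) (hY : Y.Normal) {g : X} {u u' : X → F}
    (hu : IsUnitOver f Y g u u') {c : X → F} (hc : CC f Y c) :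
    mulF u c = mulF (cjF g c) u := by
  have hs : ∀ t, t ∉ Y → rt g u' t = 0 := by
    intro t ht
    apply hu.right.supp
    intro hc
    apply ht
    have := hY.conj_mem _ hc g⁻¹
    have e : g⁻¹ * (g⁻¹⁻¹ * (t * g⁻¹)) * g⁻¹⁻¹ = t := by group
    rwa [e] at this
  have h1 : mulF (rt g u') c = mulF c (rt g u') := comm_of_inv Y hs hc.inv
  have h1' := congrArg toMA h1
  rw [toMA_mulF, toMA_mulF, toMA_rt] at h1'
  have hfc : ∀ z : MonoidAlgebra F X, toMA f * z = z * toMA f := (H20.isCl_iff f).1 hf.cl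
  have h2 : toMA f = toMA u * toMA u' := by rw [← toMA_mulF, hu.mul]
  have h2' : toMA f = toMA u' * toMA u := by rw [← toMA_mulF, unit_symm hf hY hu]
  have hfu : toMA f * toMA u = toMA u := by rw [← toMA_mulF, hu.left.abs]
  have hfcc : toMA f * toMA c = toMA c := by rw [← toMA_mulF, hc.abs]
  -- `u c u' g = g c`
  have h3 : toMA u * toMA c * (toMA u' * sg g) = sg g * toMA c := by
    calc toMA u * toMA c * (toMA u' * sg g) = toMA u * (toMA c * (toMA u' * sg g)) := by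
          simp only [mul_assoc]
      _ = toMA u * toMA u' * sg g * toMA c := by rw [← h1']; simp only [mul_assoc]
      _ = toMA f * (sg g * toMA c) := by rw [← h2]; simp only [mul_assoc]
      _ = sg g * toMA c := by rw [hfc, mul_assoc, ← hfc, hfcc]
  have h4 : toMA u * toMA c * toMA u' = sg g * toMA c * sg g⁻¹ := by
    rw [← h3]
    calc toMA u * toMA c * toMA u' = toMA u * toMA c * toMA u' * (sg g * sg g⁻¹) := by
          rw [sg_mul_inv, mul_one]
      _ = _ := by simp only [mul_assoc]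
  apply toMA_injective
  rw [toMA_mulF, toMA_mulF, toMA_cjF, ← h4]
  calc toMA u * toMA c = toMA u * (toMA f * toMA c) := by rw [hfcc]
    _ = toMA u * (toMA c * toMA f) := by rw [hfc]
    _ = _ := by rw [h2']; simp only [mul_assoc]

/-- the value `ρ(Br(u') g)` -/
def EM (Y S R : Subgroup X) {n : ℕ} (ρ : ↥(Y ⊓ S) →* Matrix (Fin n) (Fin n) F) (g : X)
    (u' : X → F) : Matrix (Fin n) (Fin n) F := ev ρ (fun t : ↥(Y ⊓ S) => rt g (br R u') t)

variable {n : ℕ} {ρ : ↥(Y ⊓ S) →* Matrix (Fin n) (Fin n) F}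

theorem EM_mul (hF : GoodF ℓ F) (hY : Y.Normal) (hL : Loc ℓ Y R S)
    {g h : X} (hg : g ∈ S) {u u' v v' : X → F} (hu : IsUnitOver f Y g u u')
    (hv : IsUnitOver f Y h v v') :
    EM Y S R ρ (g * h) (mulF v' u') = EM Y S R ρ g u' * EM Y S R ρ h v' := by
  unfold EM
  rw [rt_mul hF hY hL hg hu hv, ev_res_mul ρ (rt_supp hY hL hg hu.right)]

theorem EM_z (hF : GoodF ℓ F) (hf : SBlk Y f) (hL : Loc ℓ Y R S) (hρ : IsIrr ρ)
    (hφ : actF (fun t : ↥(Y ⊓ S) => f t) (tr ρ) = tr ρ) {g : X} {z u' : X → F}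
    (hz : CE f Y 1 z) (hu : ∀ n ∈ Y, ∀ h, u' (n * h * n⁻¹) = u' h) :
    EM Y S R ρ g (mulF z u') = lamJ f z • EM Y S R ρ g u' := by
  unfold EM
  have h1 : rt g (br R (mulF z u')) = mulF (br R z) (rt g (br R u')) := by
    rw [br_mulF_Y hF hL hz.inv hu]
    apply toMA_injective
    rw [toMA_rt, toMA_mulF, toMA_mulF, toMA_rt, mul_assoc]
  have hs : ∀ t, t ∉ Y ⊓ S → br R z t = 0 := by
    intro t ht
    classical
    by_cases h1 : t ∈ Subgroup.centralizer (R : Set X)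
    · simp only [br, if_pos h1]
      exact hz.supp1 t fun hc => ht ⟨hc, hL.cent h1⟩
    · simp only [br, if_neg h1]
  rw [h1, ev_res_mul ρ hs, Pool.Agent.PP.J74.ev_z hF hf hL hz ρ hρ hφ, Matrix.scalar_apply,
    ← Matrix.smul_one_eq_diagonal, Matrix.smul_mul, Matrix.one_mul]

theorem EM_f (hF : GoodF ℓ F) (hf : SBlk Y f) (hL : Loc ℓ Y R S) (hρ : IsIrr ρ)
    (hφ : actF (fun t : ↥(Y ⊓ S) => f t) (tr ρ) = tr ρ) (t : ↥(Y ⊓ S)) :
    EM Y S R ρ t f = ρ t := by
  unfold EM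
  have h1 := ev_rt (Y ⊓ S).subtype ρ (br R f) t
  have h2 : (fun s : ↥(Y ⊓ S) => rt ((Y ⊓ S).subtype t) (br R f) ((Y ⊓ S).subtype s)) =
      fun s : ↥(Y ⊓ S) => rt (t : X) (br R f) s := rfl
  rw [h2] at h1
  rw [h1]
  have h3 := ev_br_one hF hf hL hρ hφ
  have h4 : (fun s : ↥(Y ⊓ S) => br R f ((Y ⊓ S).subtype s)) = fun s : ↥(Y ⊓ S) => br R f s := rfl
  rw [h4, h3, one_mul]

end unit

/-! ### the representation `ρ * W` -/

section kap

variable {F X : Type} [Field F] [Group X] [Finite X] {ℓ : ℕ} {Y R S M : Subgroup X} {f : X → F}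
  {n m : ℕ} {ρ : ↥(Y ⊓ S) →* Matrix (Fin n) (Fin n) F}
  {W : (X → F) →ₗ[F] Matrix (Fin m) (Fin m) F}

theorem kr_unit (hF : GoodF ℓ F) (hf : SBlk Y f) (hY : Y.Normal) (hL : Loc ℓ Y R S) (hρ : IsIrr ρ)
    (hφ : actF (fun t : ↥(Y ⊓ S) => f t) (tr ρ) = tr ρ) (hYM : Y ≤ M) (hW : IrrD f Y M W)
    {g : X} (hg : g ∈ M) {u u' v v' : X → F} (hu : IsUnitOver f Y g u u')
    (hv : IsUnitOver f Y g v v') :
    kr (EM Y S R ρ g v') (W v) = kr (EM Y S R ρ g u') (W u) := by
  have hff := Pool.Agent.PP.J74.f_comm hf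
  have hz : CE f Y 1 (mulF v u') := by
    have := CE_mul hf hY hv.left hu.right
    rwa [mul_inv_cancel] at this
  have hz' : CE f Y 1 (mulF u v') := by
    have := CE_mul hf hY hu.left hv.right
    rwa [mul_inv_cancel] at this
  have h1 : mulF (mulF v u') u = v := by
    rw [mulF_assoc, unit_symm hf hY hu, ← hff, hv.left.abs]
  have h2 : mulF (mulF u v') u' = v' := by
    rw [Pool.Agent.PP.J74.C1_comm hz' hu.right.cc, ← mulF_assoc, unit_symm hf hY hu, hv.right.abs]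
  have h3 : lamJ f (mulF v u') * lamJ f (mulF u v') = 1 := by
    rw [← Pool.Agent.PP.J74.lam_mul hF.closed hY hf hz hz', ← Pool.Agent.PP.J74.lam_f hF.closed hf]
    congr 1
    rw [← mulF_assoc, h1, hv.mul]
  have h4 : W v = lamJ f (mulF v u') • W u := by
    conv_lhs => rw [← h1]
    rw [hW.mul _ _ (CE_DE hYM M.one_mem hz) (CE_DE hYM hg hu.left),
      W_lam hF.closed hf hY hYM hW hz, Matrix.scalar_apply, ← Matrix.smul_one_eq_diagonal,
      Matrix.smul_mul, Matrix.one_mul]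
  have h5 : EM Y S R ρ g v' = lamJ f (mulF u v') • EM Y S R ρ g u' := by
    conv_lhs => rw [← h2]
    exact EM_z hF hf hL hρ hφ hz' hu.right.inv
  rw [h4, h5, H74.kr_smul_left, H74.kr_smul_right, smul_smul,
    mul_comm (lamJ f (mulF u v')), h3, one_smul]

/-- the property of the representation `ρ * W` -/
def IsK (f : X → F) (Y R S M : Subgroup X) (ρ : ↥(Y ⊓ S) →* Matrix (Fin n) (Fin n) F)
    (W : (X → F) →ₗ[F] Matrix (Fin m) (Fin m) F)
    (ψ : ↥(M.subgroupOf S) →* Matrix (Fin (n * m)) (Fin (n * m)) F) : Prop :=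
  ∀ (g : ↥(M.subgroupOf S)) (u u' : X → F), IsUnitOver f Y ((g : S) : X) u u' →
    ψ g = kr (EM Y S R ρ ((g : S) : X) u') (W u)

theorem exists_psi (hF : GoodF ℓ F) (hf : SBlk Y f) (hY : Y.Normal) (hL : Loc ℓ Y R S)
    (hρ : IsIrr ρ) (hφ : actF (fun t : ↥(Y ⊓ S) => f t) (tr ρ) = tr ρ) (hYM : Y ≤ M)
    (hMX : M ≤ XF f Y) (hW : IrrD f Y M W) :
    ∃ ψ : ↥(M.subgroupOf S) →* Matrix (Fin (n * m)) (Fin (n * m)) F, IsK f Y R S M ρ W ψ := by
  have hmem : ∀ g : ↥(M.subgroupOf S), ((g : S) : X) ∈ M := fun g => Subgroup.mem_subgroupOf.1 g.2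
  have hex : ∀ g : ↥(M.subgroupOf S), ∃ u u', IsUnitOver f Y ((g : S) : X) u u' :=
    fun g => (mem_XF hf hY).1 (hMX (hmem g))
  choose U U' hU using hex
  have hkey : ∀ (g : ↥(M.subgroupOf S)) (u u' : X → F), IsUnitOver f Y ((g : S) : X) u u' →
      kr (EM Y S R ρ ((g : S) : X) (U' g)) (W (U g)) = kr (EM Y S R ρ ((g : S) : X) u') (W u) :=
    fun g u u' hu => kr_unit hF hf hY hL hρ hφ hYM hW (hmem g) hu (hU g)
  refine ⟨{ toFun := fun g => kr (EM Y S R ρ ((g : S) : X) (U' g)) (W (U g))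
            map_one' := ?_
            map_mul' := ?_ }, ?_⟩
  · have h1 := hkey 1 f f (unit_one hf)
    rw [h1]
    have h2 := EM_f hF hf hL hρ hφ 1
    rw [map_one] at h2
    show kr (EM Y S R ρ ((1 : ↥(Y ⊓ S)) : X) f) (W f) = 1
    rw [h2, hW.one, H74.kr_one]
  · intro g h
    have h1 := hkey (g * h) _ _ (unit_mul hf hY (hU g) (hU h))
    rw [h1]
    show kr (EM Y S R ρ (((g : S) : X) * ((h : S) : X)) (mulF (U' h) (U' g))) (W (mulF (U g) (U h))) = _
    rw [EM_mul hF hY hL (g : S).2 (hU g) (hU h), hW.mul _ _ (CE_DE hYM (hmem g) (hU g).left)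
      (CE_DE hYM (hmem h) (hU h).left), H74.kr_mul]
  · exact hkey

/-- the inclusion of `Y ∩ S` into `M ∩ S` -/
def jj (hYM : Y ≤ M) : ↥(Y ⊓ S) →* ↥(M.subgroupOf S) where
  toFun t := ⟨⟨t, t.2.2⟩, Subgroup.mem_subgroupOf.2 (hYM t.2.1)⟩
  map_one' := rfl
  map_mul' _ _ := rfl

/-- the embedding of `M ∩ S` -/
def io (M S : Subgroup X) : ↥(M.subgroupOf S) →* X := S.subtype.comp (M.subgroupOf S).subtype

theorem io_inj (M S : Subgroup X) : Function.Injective (io M S) := by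
  intro a b h
  apply Subtype.ext
  apply Subtype.ext
  exact h

theorem io_range {t : X} : t ∈ (io M S).range ↔ t ∈ M ∧ t ∈ S := by
  constructor
  · rintro ⟨s, rfl⟩
    exact ⟨Subgroup.mem_subgroupOf.1 s.2, (s : S).2⟩
  · rintro ⟨h1, h2⟩
    exact ⟨⟨⟨t, h2⟩, Subgroup.mem_subgroupOf.2 h1⟩, rfl⟩

theorem br_supp (hL : Loc ℓ Y R S) {d : X → F} (hd : ∀ h, h ∉ M → d h = 0) :
    ∀ t, t ∉ (io M S).range → br R d t = 0 := by
  intro t ht
  classical
  by_cases h1 : t ∈ Subgroup.centralizer (R : Set X)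
  · simp only [br, if_pos h1]
    exact hd t fun hc => ht (io_range.2 ⟨hc, hL.cent h1⟩)
  · simp only [br, if_neg h1]

/-- the evaluation of functions supported on `Y ∩ S` -/
theorem ev_jj (hYM : Y ≤ M) {N : ℕ} (ψ : ↥(M.subgroupOf S) →* Matrix (Fin N) (Fin N) F)
    {a : X → F} (ha : ∀ t, t ∉ Y ⊓ S → a t = 0) :
    ev ψ (fun t => a (io M S t)) = ev (ψ.comp (jj hYM)) (fun t : ↥(Y ⊓ S) => a t) := by
  have hfin := Fintype.ofFinite ↥(M.subgroupOf S)
  have hfinL := Fintype.ofFinite ↥(Y ⊓ S)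
  rw [ev, ev, finsum_eq_sum_of_fintype, finsum_eq_sum_of_fintype]
  symm
  apply Fintype.sum_of_injective (fun t : ↥(Y ⊓ S) => jj (M := M) hYM t)
  · intro a b h
    have h1 := congrArg (io M S) h
    exact Subtype.ext h1
  · intro t ht
    rw [ha, zero_smul]
    intro hc
    exact ht ⟨⟨io M S t, hc⟩, Subtype.ext (Subtype.ext rfl)⟩
  · intro t
    rfl

theorem ev_kr {L : Type} [Group L] [Finite L] (ρ : L →* Matrix (Fin n) (Fin n) F) {n' : ℕ}
    (ψ : L →* Matrix (Fin n') (Fin n') F) (T : Matrix (Fin n') (Fin (n * m)) F)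
    (T' : Matrix (Fin (n * m)) (Fin n') F)
    (h : ∀ t, ψ t = T * kr (ρ t) (1 : Matrix (Fin m) (Fin m) F) * T') (a : L → F) :
    ev ψ a = T * kr (ev ρ a) (1 : Matrix (Fin m) (Fin m) F) * T' := by
  have hfinL := Fintype.ofFinite L
  rw [ev, ev, finsum_eq_sum_of_fintype, finsum_eq_sum_of_fintype]
  let k : Matrix (Fin n) (Fin n) F →ₗ[F] Matrix (Fin (n * m)) (Fin (n * m)) F :=
    { toFun := fun A => kr A 1
      map_add' := fun A B => H74.kr_add_left A B 1
      map_smul' := fun c A => H74.kr_smul_left c A 1 }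
  show _ = T * k (∑ t, a t • ρ t) * T'
  rw [map_sum, Matrix.mul_sum, Matrix.sum_mul]
  apply Finset.sum_congr rfl
  intro t _
  rw [map_smul, h, Matrix.mul_smul, Matrix.smul_mul]
  rfl

section props

variable {ψ : ↥(M.subgroupOf S) →* Matrix (Fin (n * m)) (Fin (n * m)) F}

theorem psi_Y (hF : GoodF ℓ F) (hf : SBlk Y f) (hY : Y.Normal) (hL : Loc ℓ Y R S)
    (hρ : IsIrr ρ) (hφ : actF (fun t : ↥(Y ⊓ S) => f t) (tr ρ) = tr ρ) (hYM : Y ≤ M)
    (hW : IrrD f Y M W) (hψ : IsK f Y R S M ρ W ψ) (t : ↥(Y ⊓ S)) :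
    ψ (jj hYM t) = kr (ρ t) 1 := by
  have h1 : IsUnitOver f Y (t : X) f f := unit_congr hY (by
    rw [inv_one, one_mul]; exact t.2.1) (unit_one hf)
  rw [hψ (jj hYM t) f f h1, hW.one]
  congr 1
  exact EM_f hF hf hL hρ hφ t

theorem psi_evY (hF : GoodF ℓ F) (hf : SBlk Y f) (hY : Y.Normal) (hL : Loc ℓ Y R S)
    (hρ : IsIrr ρ) (hφ : actF (fun t : ↥(Y ⊓ S) => f t) (tr ρ) = tr ρ) (hYM : Y ≤ M)
    (hW : IrrD f Y M W) (hψ : IsK f Y R S M ρ W ψ) {a : X → F} (ha : ∀ t, t ∉ Y ⊓ S → a t = 0) :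
    ev ψ (fun t => a (io M S t)) = kr (ev ρ (fun t : ↥(Y ⊓ S) => a t)) 1 := by
  rw [ev_jj hYM ψ ha]
  have h1 := ev_kr ρ (ψ.comp (jj hYM)) (1 : Matrix (Fin (n * m)) (Fin (n * m)) F) 1 (by
    intro t
    rw [one_mul, mul_one]
    exact psi_Y hF hf hY hL hρ hφ hYM hW hψ t) (fun t : ↥(Y ⊓ S) => a t)
  rw [one_mul, mul_one] at h1
  exact h1

/-- evaluation of the units -/
theorem psi_unit (hF : GoodF ℓ F) (hf : SBlk Y f) (hY : Y.Normal) (hL : Loc ℓ Y R S)
    (hρ : IsIrr ρ) (hφ : actF (fun t : ↥(Y ⊓ S) => f t) (tr ρ) = tr ρ) (hYM : Y ≤ M)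
    (hW : IrrD f Y M W) (hψ : IsK f Y R S M ρ W ψ) {g : ↥(M.subgroupOf S)} {u u' : X → F}
    (hu : IsUnitOver f Y (io M S g) u u') :
    ev ψ (fun t => br R u (io M S t)) = kr 1 (W u) := by
  have hgS : io M S g ∈ S := (g : S).2
  have hinv := unit_inv hf hY hu
  have hs : ∀ t, t ∉ Y ⊓ S → rt (io M S g)⁻¹ (br R u) t = 0 :=
    rt_supp hY hL (S.inv_mem hgS) hinv.right
  have h1 := ev_rt (io M S) ψ (rt (io M S g)⁻¹ (br R u)) g
  have h2 : rt (io M S g) (rt (io M S g)⁻¹ (br R u)) = br R u := by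
    funext t
    show br R u (t * (io M S g)⁻¹ * (io M S g)⁻¹⁻¹) = br R u t
    congr 1
    group
  rw [h2, psi_evY hF hf hY hL hρ hφ hYM hW hψ hs, hψ g u u' hu, H74.kr_mul, one_mul] at h1
  rw [h1]
  congr 1
  unfold EM
  have h3 := ev_res_mul ρ hs (rt (io M S g) (br R u'))
  rw [← ev_br_one hF hf hL hρ hφ]
  refine Eq.trans h3.symm ?_
  have key : mulF (rt (io M S g)⁻¹ (br R u)) (rt (io M S g) (br R u')) = br R f := ?_
  · rw [key]
  apply toMA_injective
  have hcj := congrArg toMA (br_cj_unit hf hY hL hgS hu).2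
  rw [toMA_cjF] at hcj
  have hcj' : toMA (br R u') * sg (io M S g) = sg (io M S g) * toMA (br R u') := by
    have h4 := congrArg (fun w => w * sg (io M S g)) hcj
    simp only [mul_assoc, sg_mul, inv_mul_cancel] at h4
    rw [sg_one, mul_one] at h4
    exact h4.symm
  rw [toMA_mulF, toMA_rt, toMA_rt, hcj']
  calc toMA (br R u) * sg (io M S g)⁻¹ * (sg (io M S g) * toMA (br R u')) =
      toMA (br R u) * (sg (io M S g)⁻¹ * sg (io M S g)) * toMA (br R u') := by
        simp only [mul_assoc]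
    _ = toMA (br R f) := by
        rw [sg_inv_mul, mul_one, ← toMA_mulF, ← br_mulF_Y hF hL hu.left.inv hu.right.inv, hu.mul]

theorem ev_br_lin {N : ℕ} (ψ : ↥(M.subgroupOf S) →* Matrix (Fin N) (Fin N) F) (R : Subgroup X) :
    ∃ E : (X → F) →ₗ[F] Matrix (Fin N) (Fin N) F, ∀ d,
      E d = ev ψ (fun t => br R d (io M S t)) := by
  classical
  refine ⟨{ toFun := fun d => ev ψ (fun t => br R d (io M S t))
            map_add' := fun a b => ?_
            map_smul' := fun c a => ?_ }, fun d => rfl⟩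
  · rw [← ev_add]
    congr 1
    funext t
    by_cases ht : io M S t ∈ Subgroup.centralizer (R : Set X)
    · simp [br, if_pos ht]
    · simp [br, if_neg ht]
  · rw [RingHom.id_apply, ← ev_smul]
    congr 1
    funext t
    by_cases ht : io M S t ∈ Subgroup.centralizer (R : Set X)
    · simp [br, if_pos ht]
    · simp [br, if_neg ht]

/-- evaluation of the elements of `D` -/
theorem psi_DE (hF : GoodF ℓ F) (hf : SBlk Y f) (hY : Y.Normal) (hL : Loc ℓ Y R S)
    (hρ : IsIrr ρ) (hφ : actF (fun t : ↥(Y ⊓ S) => f t) (tr ρ) = tr ρ) (hYM : Y ≤ M)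
    (hMX : M ≤ XF f Y) (hW : IrrD f Y M W) (hψ : IsK f Y R S M ρ W ψ) {d : X → F}
    (hd : DE f Y M d) :
    ev ψ (fun t => br R d (io M S t)) = kr 1 (W d) := by
  obtain ⟨E, hE⟩ := ev_br_lin ψ R
  have hspan := DE_span hf hY hYM hd
  rw [← hE]
  have hne : br R f ≠ 0 := by
    intro h0
    have h1 := ev_br_one hF hf hL hρ hφ
    have hN : NeZero n := ⟨hρ.1.ne'⟩
    have h2 : (fun t : ↥(Y ⊓ S) => br R f t) = 0 := by rw [h0]; rfl
    rw [h2] at h1
    have h3 : ev ρ (0 : ↥(Y ⊓ S) → F) = 0 := by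
      have := ev_smul ρ (0 : F) (0 : ↥(Y ⊓ S) → F)
      rw [zero_smul, zero_smul] at this
      exact this
    rw [h3] at h1
    exact zero_ne_one h1
  clear hd
  induction hspan using Submodule.span_induction with
  | mem c hc =>
    obtain ⟨g, hg, hc⟩ := hc
    obtain ⟨u, u', hu⟩ := (mem_XF hf hY).1 (hMX hg)
    obtain ⟨n0, hn0, hj⟩ := exists_cent hF hf hL hne hu
    have hu' : IsUnitOver f Y (g * n0) u u' :=
      unit_congr hY (by rw [inv_mul_cancel_left]; exact hn0) hu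
    have hc' : CE f Y (g * n0) c := CE_congr (by rw [inv_mul_cancel_left]; exact hn0) hc
    have hz : CE f Y 1 (mulF c u') := by
      have := CE_mul hf hY hc' hu'.right
      rwa [mul_inv_cancel] at this
    have h1 : c = mulF (mulF c u') u := by
      rw [mulF_assoc, unit_symm hf hY hu, ← Pool.Agent.PP.J74.f_comm hf, hc.abs]
    have h2 : E c = ev ψ (fun t => br R (mulF c u') (io M S t)) *
        ev ψ (fun t => br R u (io M S t)) := by
      rw [hE]
      conv_lhs => rw [h1]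
      rw [br_mulF_Y hF hL hz.inv hu.left.inv]
      exact comp_ev_mul (io M S) (io_inj M S) ψ
        (br_supp hL (CE_DE hYM M.one_mem hz).supp) (br R u)
    have hzs : ∀ t, t ∉ Y ⊓ S → br R (mulF c u') t = 0 := by
      intro t ht
      classical
      by_cases h1 : t ∈ Subgroup.centralizer (R : Set X)
      · simp only [br, if_pos h1]
        exact hz.supp1 t fun hc => ht ⟨hc, hL.cent h1⟩
      · simp only [br, if_neg h1]
    obtain ⟨g', hg'⟩ : ∃ g' : ↥(M.subgroupOf S), io M S g' = g * n0 :=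
      io_range.2 ⟨M.mul_mem hg (hYM hn0), hL.cent hj⟩
    rw [← hg'] at hu'
    rw [h2, psi_evY hF hf hY hL hρ hφ hYM hW hψ hzs, psi_unit hF hf hY hL hρ hφ hYM hW hψ hu',
      Pool.Agent.PP.J74.ev_z hF hf hL hz ρ hρ hφ, H74.kr_mul, one_mul, mul_one]
    conv_rhs => rw [h1]
    rw [hW.mul _ _ (CE_DE hYM M.one_mem hz) (CE_DE hYM hg hu.left),
      W_lam hF.closed hf hY hYM hW hz, Matrix.scalar_apply, Matrix.scalar_apply,
      ← Matrix.smul_one_eq_diagonal, ← Matrix.smul_one_eq_diagonal,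
      Matrix.smul_mul, Matrix.one_mul, H74.kr_smul_left, H74.kr_smul_right]
  | zero =>
    rw [map_zero, map_zero]
    apply H74.kr_ext
    intro i j k l
    rw [H74.kr_apply]
    simp
  | add x y _ _ hx hy => rw [map_add, map_add, hx, hy, H74.kr_add_right]
  | smul c x _ hx => rw [map_smul, map_smul, hx, H74.kr_smul_right]

end props

end kap

end Pool.Agent.PP.H58
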